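import Pool.Agent.N976.DI.Def
import Pool.Agent.N976.SC.T3
import Pool.Agent.N976.SC.T4a
import Pool.Agent.H772R2.NS.Space3

/-!
# Weak-strong uniqueness for strong solutions under constraints (D1)
-/

open Set Filter Topology MeasureTheory
open scoped ContDiff InnerProductSpace ENNReal NNReal

set_option autoImplicit false

namespace Pool.Agent.N976.DI.D1

open Pool.Agent.N976.SC Pool.Agent.N976.DI
open H772R2.NS (jac IsTest L2V L2M H1graph M3 tens tensL graphW mem_graphW graphW_induction)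

/-! ### Algebra -/

/-- the tensor product -/
noncomputable def tn (a b : E3) : M3 := WithLp.toLp 2 fun p => a p.1 * b p.2

theorem tn_apply (a b : E3) (p : Fin 3 × Fin 3) : tn a b p = a p.1 * b p.2 := rfl

theorem tens_eq (a : E3) : tens a = tn a a := rfl

theorem norm_tn (a b : E3) : ‖tn a b‖ = ‖a‖ * ‖b‖ := by
  have h : ‖tn a b‖ ^ 2 = (‖a‖ * ‖b‖) ^ 2 := by
    rw [H772R2.NS.norm_sq_M3, mul_pow, H772R2.NS.norm_sq_E3, H772R2.NS.norm_sq_E3,
      Finset.sum_mul_sum]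
    simp only [tn_apply, mul_pow]
  exact (pow_left_inj₀ (norm_nonneg _) (by positivity) (by norm_num)).mp h

theorem inner_tn (a b : E3) (z : M3) : ⟪tn a b, z⟫_ℝ = ⟪a, mv z b⟫_ℝ := by
  rw [H772R2.NS.inner_M3, H772R2.NS.inner_E3]
  refine Finset.sum_congr rfl fun i _ => ?_
  simp only [mv, tn_apply, Finset.mul_sum]
  refine Finset.sum_congr rfl fun j _ => ?_
  ring

theorem mv_jac (φ : E3 → E3) (x a : E3) : mv (jac φ x) a = fderiv ℝ φ x a := by
  conv_rhs => rw [← T3.sum_bv a]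
  rw [map_sum]
  ext i
  simp only [mv, WithLp.ofLp_sum, Finset.sum_apply, map_smul, PiLp.smul_apply, smul_eq_mul,
    H772R2.NS.jac_apply]
  refine Finset.sum_congr rfl fun j _ => ?_
  rw [mul_comm]
  rfl

theorem inner_tn_jac (a b : E3) (φ : E3 → E3) (x : E3) :
    ⟪tn a b, jac φ x⟫_ℝ = ⟪a, fderiv ℝ φ x b⟫_ℝ := by
  rw [inner_tn, mv_jac]

theorem inner_jac_jac (φ ψ : E3 → E3) (x : E3) :
    ⟪jac φ x, jac ψ x⟫_ℝ = ∑ j : Fin 3, ⟪fderiv ℝ φ x (bv j), fderiv ℝ ψ x (bv j)⟫_ℝ := by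
  rw [H772R2.NS.inner_M3, Finset.sum_comm]
  refine Finset.sum_congr rfl fun j _ => ?_
  rw [H772R2.NS.inner_E3]
  rfl

theorem tn_add_left (a a' b : E3) : tn (a + a') b = tn a b + tn a' b := by
  ext p
  simp only [tn_apply, PiLp.add_apply]
  ring

theorem tn_smul_left (c : ℝ) (a b : E3) : tn (c • a) b = c • tn a b := by
  ext p
  simp only [tn_apply, PiLp.smul_apply, smul_eq_mul]
  ring

theorem tens_add (w a : E3) : tens (w + a) - tens a = tens w + tn w a + tn a w := by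
  ext p
  simp only [tens_eq, tn_apply, PiLp.add_apply, PiLp.sub_apply]
  ring

theorem continuous_tn : Continuous fun p : E3 × E3 => tn p.1 p.2 := by
  unfold tn
  refine (PiLp.continuous_toLp 2 _).comp ?_
  refine continuous_pi (fun p => ?_)
  fun_prop

/-! ### Classes of fields -/

open Classical in
/-- the class of a field -/
noncomputable def cv (Ω : Set E3) (f : E3 → E3) : L2V Ω :=
  if h : MemLp f 2 (volume.restrict Ω) then h.toLp f else 0

open Classical in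
/-- the class of a matrix field -/
noncomputable def cm (Ω : Set E3) (f : E3 → M3) : L2M Ω :=
  if h : MemLp f 2 (volume.restrict Ω) then h.toLp f else 0

theorem cv_coe {Ω : Set E3} {f : E3 → E3} (h : MemLp f 2 (volume.restrict Ω)) :
    (cv Ω f : E3 → E3) =ᵐ[volume.restrict Ω] f := by
  unfold cv
  rw [dif_pos h]
  exact h.coeFn_toLp

theorem cm_coe {Ω : Set E3} {f : E3 → M3} (h : MemLp f 2 (volume.restrict Ω)) :
    (cm Ω f : E3 → M3) =ᵐ[volume.restrict Ω] f := by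
  unfold cm
  rw [dif_pos h]
  exact h.coeFn_toLp

theorem memLp_cc {Ω : Set E3} {F : Type} [NormedAddCommGroup F] {f : E3 → F} (hf : Continuous f)
    (hc : HasCompactSupport f) : MemLp f 2 (volume.restrict Ω) :=
  (hf.memLp_of_hasCompactSupport hc).restrict Ω

theorem test_mem {Ω : Set E3} {φ : E3 → E3} (h : IsTest Ω φ) :
    (cv Ω φ, cm Ω (jac φ)) ∈ graphW Ω := by
  apply Submodule.le_topologicalClosure
  exact ⟨φ, h, cv_coe ((h.memLp 2).restrict Ω), cm_coe ((h.jac_memLp 2).restrict Ω)⟩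

theorem test_Sm {Ω : Set E3} {φ : E3 → E3} (h : IsTest Ω φ) : T4.Sm φ := ⟨h.smooth, h.compact⟩

theorem test_div {Ω : Set E3} {φ : E3 → E3} (h : IsTest Ω φ) (y : E3) : divg φ y = 0 :=
  h.divfree y

/-- integrals over `Ω` -/
theorem int_Om {Ω : Set E3} {f : E3 → ℝ} (h : ∀ x, x ∉ Ω → f x = 0) :
    ∫ x in Ω, f x = ∫ x, f x :=
  setIntegral_eq_integral_of_forall_compl_eq_zero fun x hx => h x hx

theorem test_out {Ω : Set E3} {φ : E3 → E3} (h : IsTest Ω φ) {x : E3} (hx : x ∉ Ω) : φ x = 0 :=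
  image_eq_zero_of_notMem_tsupport fun hc => hx (h.supp hc)

theorem test_jac_out {Ω : Set E3} {φ : E3 → E3} (h : IsTest Ω φ) {x : E3} (hx : x ∉ Ω) :
    jac φ x = 0 :=
  image_eq_zero_of_notMem_tsupport fun hc => hx (h.supp (H772R2.NS.tsupport_jac_subset hc))

theorem int_inn {α F : Type} [MeasurableSpace α] {μ : Measure α} [NormedAddCommGroup F]
    [InnerProductSpace ℝ F] {f g : α → F} (hf : MemLp f 2 μ) (hg : MemLp g 2 μ) :
    Integrable (fun x => ⟪f x, g x⟫_ℝ) μ := by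
  refine (L2.integrable_inner (𝕜 := ℝ) (hf.toLp f) (hg.toLp g)).congr ?_
  filter_upwards [hf.coeFn_toLp, hg.coeFn_toLp] with x a b
  rw [a, b]

/-! ### The identities for test fields -/

/-- `∫ U ⊗ U : ∇w = - ∫ (U·∇U)·w` -/
theorem tri2 {Ω : Set E3} {U : E3 → E3} (hU : IsTest Ω U) {p : L2V Ω × L2M Ω}
    (hp : p ∈ graphW Ω) :
    ⟪cm Ω (fun x => tens (U x)), p.2⟫_ℝ + ⟪cv Ω (adv U U), p.1⟫_ℝ = 0 := by
  have hUs := test_Sm hU
  have hm1 : MemLp (fun x => tens (U x)) 2 (volume.restrict Ω) := by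
    refine memLp_cc (H772R2.NS.continuous_tens.comp hU.smooth.continuous) (hU.compact.mono ?_)
    intro x hx h0
    apply hx
    simp only [h0]
    ext p; simp [H772R2.NS.tens_apply]
  have hadv := T4.Sm.adv hUs hU.smooth
  have hm2 : MemLp (adv U U) 2 (volume.restrict Ω) := memLp_cc hadv.sm.continuous hadv.cs
  refine graphW_induction (fun p => ⟪cm Ω (fun x => tens (U x)), p.2⟫_ℝ + ⟪cv Ω (adv U U), p.1⟫_ℝ)
    (by fun_prop) ?_ hp
  rintro q ⟨φ, h1, h2, h3⟩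
  have e1 : ⟪cm Ω (fun x => tens (U x)), q.2⟫_ℝ = ip (adv U φ) U := by
    rw [L2.inner_def]
    have : ∫ x in Ω, ⟪(cm Ω (fun x => tens (U x)) : E3 → M3) x, q.2 x⟫_ℝ =
        ∫ x in Ω, ⟪adv U φ x, U x⟫_ℝ := by
      apply integral_congr_ae
      filter_upwards [cm_coe hm1, h3] with x a b
      rw [a, b, tens_eq, inner_tn_jac, real_inner_comm]
      rfl
    rw [this, int_Om]
    · rfl
    · intro x hx
      rw [test_out hU hx, inner_zero_right]
  have e2 : ⟪cv Ω (adv U U), q.1⟫_ℝ = ip (adv U U) φ := by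
    rw [L2.inner_def]
    have : ∫ x in Ω, ⟪(cv Ω (adv U U) : E3 → E3) x, q.1 x⟫_ℝ = ∫ x in Ω, ⟪adv U U x, φ x⟫_ℝ := by
      apply integral_congr_ae
      filter_upwards [cv_coe hm2, h2] with x a b
      rw [a, b]
    rw [this, int_Om]
    · rfl
    · intro x hx
      rw [test_out h1 hx, inner_zero_right]
  have e3 := T4.ip_adv_anti (a := U) (b := φ) (c := U) (hU.smooth.of_le (by simp))
    (h1.smooth.of_le (by simp)) (hU.smooth.of_le (by simp)) (test_div hU) (Or.inl h1.compact)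
  show ⟪cm Ω (fun x => tens (U x)), q.2⟫_ℝ + ⟪cv Ω (adv U U), q.1⟫_ℝ = 0
  rw [e1, e2, e3]
  ring

/-- `∫ ∇U : ∇w = - ∫ ΔU · w` -/
theorem tri3 {Ω : Set E3} {U : E3 → E3} (hU : IsTest Ω U) {p : L2V Ω × L2M Ω}
    (hp : p ∈ graphW Ω) :
    ⟪cm Ω (jac U), p.2⟫_ℝ + ⟪cv Ω (lap U), p.1⟫_ℝ = 0 := by
  have hUs := test_Sm hU
  have hm1 : MemLp (jac U) 2 (volume.restrict Ω) := (hU.jac_memLp 2).restrict Ω
  have hm2 : MemLp (lap U) 2 (volume.restrict Ω) := memLp_cc hUs.lap.sm.continuous hUs.lap.cs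
  refine graphW_induction (fun p => ⟪cm Ω (jac U), p.2⟫_ℝ + ⟪cv Ω (lap U), p.1⟫_ℝ)
    (by fun_prop) ?_ hp
  rintro q ⟨φ, h1, h2, h3⟩
  have hφs := test_Sm h1
  have e1 : ⟪cm Ω (jac U), q.2⟫_ℝ =
      ∑ j : Fin 3, ip (fun z => fderiv ℝ U z (bv j)) (fun z => fderiv ℝ φ z (bv j)) := by
    rw [L2.inner_def]
    have : ∫ x in Ω, ⟪(cm Ω (jac U) : E3 → M3) x, q.2 x⟫_ℝ =
        ∫ x in Ω, ∑ j : Fin 3, ⟪fderiv ℝ U x (bv j), fderiv ℝ φ x (bv j)⟫_ℝ := by
      apply integral_congr_ae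
      filter_upwards [cm_coe hm1, h3] with x a b
      rw [a, b, inner_jac_jac]
    rw [this, int_Om, integral_finsetSum]
    · rfl
    · intro j _
      exact T4.integ (hUs.dd (bv j)).sm.continuous (hφs.dd (bv j))
    · intro x hx
      rw [← inner_jac_jac, test_jac_out hU hx, inner_zero_left]
  have e2 : ⟪cv Ω (lap U), q.1⟫_ℝ = ip (lap U) φ := by
    rw [L2.inner_def]
    have : ∫ x in Ω, ⟪(cv Ω (lap U) : E3 → E3) x, q.1 x⟫_ℝ = ∫ x in Ω, ⟪lap U x, φ x⟫_ℝ := by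
      apply integral_congr_ae
      filter_upwards [cv_coe hm2, h2] with x a b
      rw [a, b]
    rw [this, int_Om]
    · rfl
    · intro x hx
      rw [test_out h1 hx, inner_zero_right]
  have e3 : ip (lap U) φ =
      -∑ j : Fin 3, ip (fun z => fderiv ℝ U z (bv j)) (fun z => fderiv ℝ φ z (bv j)) := by
    unfold lap
    rw [T4.ip_sum_left (fun i => (hUs.dd (bv i)).dd (bv i)) hφs.sm.continuous,
      ← Finset.sum_neg_distrib]
    refine Finset.sum_congr rfl fun i _ => ?_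
    exact T4.ip_dd (hUs.dd (bv i)) hφs.sm (bv i)
  show ⟪cm Ω (jac U), q.2⟫_ℝ + ⟪cv Ω (lap U), q.1⟫_ℝ = 0
  rw [e1, e2, e3]
  ring

theorem memLp_tnU {Ω : Set E3} {U : E3 → E3} (hU : Continuous U) {B : ℝ} (hB : ∀ x, ‖U x‖ ≤ B)
    (w : L2V Ω) : MemLp (fun x => tn (w x) (U x)) 2 (volume.restrict Ω) := by
  refine MemLp.of_le_mul (c := B) (Lp.memLp w) ?_ ?_
  · exact continuous_tn.comp_aestronglyMeasurable
      ((Lp.aestronglyMeasurable w).prodMk hU.aestronglyMeasurable)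
  · refine ae_of_all _ fun x => ?_
    rw [norm_tn, mul_comm]
    exact mul_le_mul_of_nonneg_right (hB x) (norm_nonneg _)

theorem memLp_Utn {Ω : Set E3} {U : E3 → E3} (hU : Continuous U) {B : ℝ} (hB : ∀ x, ‖U x‖ ≤ B)
    (w : L2V Ω) : MemLp (fun x => tn (U x) (w x)) 2 (volume.restrict Ω) := by
  refine MemLp.of_le_mul (c := B) (Lp.memLp w) ?_ ?_
  · exact continuous_tn.comp_aestronglyMeasurable
      (hU.aestronglyMeasurable.prodMk (Lp.aestronglyMeasurable w))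
  · refine ae_of_all _ fun x => ?_
    rw [norm_tn]
    exact mul_le_mul_of_nonneg_right (hB x) (norm_nonneg _)

/-- the map `w ↦ w ⊗ U` -/
noncomputable def TU {Ω : Set E3} {U : E3 → E3} (hU : Continuous U) {B : ℝ}
    (hB : ∀ x, ‖U x‖ ≤ B) : L2V Ω →ₗ[ℝ] L2M Ω where
  toFun w := (memLp_tnU hU hB w).toLp _
  map_add' w w' := by
    rw [← MemLp.toLp_add, MemLp.toLp_eq_toLp_iff]
    filter_upwards [Lp.coeFn_add w w'] with x hx
    simp only [Pi.add_apply] at hx ⊢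
    rw [hx, tn_add_left]
  map_smul' c w := by
    rw [RingHom.id_apply, ← MemLp.toLp_const_smul, MemLp.toLp_eq_toLp_iff]
    filter_upwards [Lp.coeFn_smul c w] with x hx
    simp only [Pi.smul_apply] at hx ⊢
    rw [hx, tn_smul_left]

theorem TU_coe {Ω : Set E3} {U : E3 → E3} (hU : Continuous U) {B : ℝ} (hB : ∀ x, ‖U x‖ ≤ B)
    (w : L2V Ω) : (TU hU hB w : E3 → M3) =ᵐ[volume.restrict Ω] fun x => tn (w x) (U x) :=
  (memLp_tnU hU hB w).coeFn_toLp

theorem TU_bound {Ω : Set E3} {U : E3 → E3} (hU : Continuous U) {B : ℝ} (hB : ∀ x, ‖U x‖ ≤ B)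
    (w : L2V Ω) : ‖TU hU hB w‖ ≤ B * ‖w‖ := by
  apply Lp.norm_le_mul_norm_of_ae_le_mul
  filter_upwards [TU_coe hU hB w] with x hx
  rw [hx, norm_tn, mul_comm]
  exact mul_le_mul_of_nonneg_right (hB x) (norm_nonneg _)

/-- `∫ w ⊗ U : ∇w = 0` -/
theorem tri1 {Ω : Set E3} {U : E3 → E3} (hU : IsTest Ω U) {B : ℝ} (hB : ∀ x, ‖U x‖ ≤ B)
    {p : L2V Ω × L2M Ω} (hp : p ∈ graphW Ω) :
    ⟪TU hU.smooth.continuous hB p.1, p.2⟫_ℝ = 0 := by
  have hUs := test_Sm hU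
  have hc : Continuous (TU (Ω := Ω) hU.smooth.continuous hB) :=
    ((TU (Ω := Ω) hU.smooth.continuous hB).mkContinuous B (TU_bound _ hB)).continuous
  refine graphW_induction (fun p => ⟪TU hU.smooth.continuous hB p.1, p.2⟫_ℝ)
    ((hc.comp continuous_fst).inner continuous_snd).continuousOn ?_ hp
  rintro q ⟨φ, h1, h2, h3⟩
  have e1 : ⟪TU hU.smooth.continuous hB q.1, q.2⟫_ℝ = ip (adv U φ) φ := by
    rw [L2.inner_def]
    have : ∫ x in Ω, ⟪(TU hU.smooth.continuous hB q.1 : E3 → M3) x, q.2 x⟫_ℝ =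
        ∫ x in Ω, ⟪adv U φ x, φ x⟫_ℝ := by
      apply integral_congr_ae
      filter_upwards [TU_coe hU.smooth.continuous hB q.1, h2, h3] with x a b c
      rw [a, b, c, inner_tn_jac, real_inner_comm]
      rfl
    rw [this, int_Om]
    · rfl
    · intro x hx
      rw [test_out h1 hx, inner_zero_right]
  have e3 := T4.ip_adv_anti (a := U) (b := φ) (c := φ) (hU.smooth.of_le (by simp))
    (h1.smooth.of_le (by simp)) (h1.smooth.of_le (by simp)) (test_div hU) (Or.inl h1.compact)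
  show ⟪TU hU.smooth.continuous hB q.1, q.2⟫_ℝ = 0
  rw [e1]
  linarith


/-! ### Abstract calculus in time -/

theorem deriv_norm_sq {H : Type} [NormedAddCommGroup H] [InnerProductSpace ℝ H] {w : ℝ → H}
    {t a C b : ℝ} (htb : t < b) (hL : ∀ s ∈ Icc t b, ‖w s - w t‖ ≤ C * (s - t))
    (hd : HasDerivWithinAt (fun s => ⟪w s, w t⟫_ℝ) a (Ici t) t) :
    HasDerivWithinAt (fun s => ‖w s‖ ^ 2) (2 * a) (Ici t) t := by
  have h1 : HasDerivWithinAt (fun s => ‖w s - w t‖ ^ 2) 0 (Ici t) t := by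
    rw [hasDerivWithinAt_iff_isLittleO]
    have h2 : (fun s => ‖w s - w t‖ ^ 2) =O[𝓝[≥] t] fun s => ‖s - t‖ ^ 2 := by
      apply Asymptotics.IsBigO.of_bound (C ^ 2)
      filter_upwards [Icc_mem_nhdsGE htb] with s hs
      have h3 := hL s hs
      have h4 : 0 ≤ s - t := by linarith [hs.1]
      rw [Real.norm_of_nonneg (by positivity), Real.norm_of_nonneg h4,
        Real.norm_of_nonneg (by positivity), ← mul_pow]
      exact pow_le_pow_left₀ (norm_nonneg _) h3 2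
    have h3 := h2.trans_isLittleO
      ((Asymptotics.isLittleO_pow_sub_sub t (by norm_num : 1 < 2)).mono nhdsWithin_le_nhds)
    simpa using h3
  have h2 := (h1.add (hd.const_mul 2)).sub (hasDerivWithinAt_const t (Ici t) (‖w t‖ ^ 2))
  refine (h2.congr_deriv (by ring)).congr (fun s _ => ?_) ?_
  · simp only [Pi.add_apply, Pi.sub_apply]
    have := norm_sub_sq_real (w s) (w t)
    linarith
  · simp only [Pi.add_apply, Pi.sub_apply]
    have := norm_sub_sq_real (w t) (w t)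
    linarith

theorem ftc_right {φ : ℝ → ℝ} {b : ℝ} (hφ : ContinuousOn φ (Icc 0 b)) {t : ℝ}
    (ht : t ∈ Ico 0 b) :
    HasDerivWithinAt (fun s => ∫ τ in (0 : ℝ)..s, φ τ) (φ t) (Ici t) t := by
  have hb : 0 ≤ b := ht.1.trans ht.2.le
  obtain ⟨ψ, hψ⟩ : ∃ ψ : ℝ → ℝ, ψ = fun s => φ (max 0 (min s b)) := ⟨_, rfl⟩
  have hψc : Continuous ψ := by
    rw [hψ]
    refine hφ.comp_continuous (by fun_prop) fun s => ⟨le_max_left _ _, ?_⟩
    exact max_le hb (min_le_right _ _)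
  have he : ∀ s ∈ Icc 0 b, ψ s = φ s := by
    intro s hs
    rw [hψ]
    simp only
    rw [min_eq_left hs.2, max_eq_right hs.1]
  have h1 : HasDerivAt (fun s => ∫ τ in (0 : ℝ)..s, ψ τ) (ψ t) t :=
    intervalIntegral.integral_hasDerivAt_right (hψc.intervalIntegrable _ _)
      (hψc.stronglyMeasurableAtFilter _ _) hψc.continuousAt
  rw [he t ⟨ht.1, ht.2.le⟩] at h1
  refine h1.hasDerivWithinAt.congr_of_eventuallyEq ?_ ?_
  · filter_upwards [Icc_mem_nhdsGE ht.2] with s hs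
    apply intervalIntegral.integral_congr
    intro τ hτ
    rw [uIcc_of_le (ht.1.trans hs.1)] at hτ
    exact (he τ ⟨hτ.1, hτ.2.trans hs.2⟩).symm
  · apply intervalIntegral.integral_congr
    intro τ hτ
    rw [uIcc_of_le ht.1] at hτ
    exact (he τ ⟨hτ.1, hτ.2.trans ht.2.le⟩).symm

theorem H1T.cont {F : Type} [NormedAddCommGroup F] [InnerProductSpace ℝ F] [CompleteSpace F]
    {T : ℝ} (hT : 0 ≤ T) {g g' : ℝ → F} (h : H1T T g g') : ContinuousOn g (Icc 0 T) := by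
  have hint : IntervalIntegrable g' volume 0 T := by
    rw [intervalIntegrable_iff_integrableOn_Ioc_of_le hT]
    exact h.memLp.integrable (by norm_num)
  have h1 := intervalIntegral.continuousOn_primitive_interval' hint (left_mem_uIcc (a := (0 : ℝ)) (b := T))
  rw [uIcc_of_le hT] at h1
  refine (continuousOn_const (c := g 0).add h1).congr fun t ht => ?_
  change g t = g 0 + ∫ x in (0 : ℝ)..t, g' x
  rw [← h.prim 0 t le_rfl ht.1 ht.2]
  abel

theorem H1T.lip {F : Type} [NormedAddCommGroup F] [InnerProductSpace ℝ F]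
    {T : ℝ} {g g' : ℝ → F} (h : H1T T g g') {M : ℝ}
    (hM : ∀ᵐ t ∂(volume.restrict (Ioc 0 T)), ‖g' t‖ ≤ M) {t s : ℝ} (ht : 0 ≤ t) (hts : t ≤ s)
    (hs : s ≤ T) : ‖g s - g t‖ ≤ M * (s - t) := by
  rw [h.prim t s ht hts hs]
  have h1 : ∀ᵐ x, x ∈ uIoc t s → ‖g' x‖ ≤ M := by
    rw [ae_restrict_iff' measurableSet_Ioc] at hM
    filter_upwards [hM] with x hx hx2
    rw [uIoc_of_le hts] at hx2
    exact hx ⟨lt_of_le_of_lt ht hx2.1, hx2.2.trans hs⟩
  have h2 := intervalIntegral.norm_integral_le_of_norm_le_const_ae h1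
  rwa [abs_of_nonneg (by linarith)] at h2

/-! ### The flow -/

section flow

variable {ι : Type} {Ω : Set E3} {ν T : ℝ} {r : ι → E3 → E3} {U : ℝ → E3 → E3}

/-- the derivative in time -/
noncomputable def DU (T : ℝ) (U : ℝ → E3 → E3) (z : ℝ × E3) : E3 :=
  fderivWithin ℝ (fun z : ℝ × E3 => U z.1 z.2) (Ico 0 T ×ˢ univ) z (1, 0)

theorem hasD (h : Flow Ω ν T r U) {t : ℝ} (ht : t ∈ Ico 0 T) (y : E3) :
    HasDerivWithinAt (fun τ => U τ y) (DU T U (t, y)) (Ico 0 T) t := by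
  have h1 : HasFDerivWithinAt (fun z : ℝ × E3 => U z.1 z.2)
      (fderivWithin ℝ (fun z : ℝ × E3 => U z.1 z.2) (Ico 0 T ×ˢ univ) (t, y))
      (Ico 0 T ×ˢ univ) (t, y) :=
    (h.sm.differentiableOn (by simp) (t, y) ⟨ht, mem_univ _⟩).hasFDerivWithinAt
  have h2 : HasDerivWithinAt (fun τ : ℝ => (τ, y)) ((1 : ℝ), (0 : E3)) (Ico 0 T) t :=
    (hasDerivWithinAt_id t _).prodMk (hasDerivWithinAt_const t _ y)
  have h3 : MapsTo (fun τ : ℝ => (τ, y)) (Ico 0 T) (Ico 0 T ×ˢ (univ : Set E3)) :=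
    fun τ hτ => ⟨hτ, mem_univ _⟩
  exact h1.comp_hasDerivWithinAt t h2 h3

theorem dt_eq (h : Flow Ω ν T r U) {t : ℝ} (ht : t ∈ Ico 0 T) (y : E3) :
    dt T U t y = DU T U (t, y) := (hasD h ht y).derivWithin (T3.udo T t ht)

theorem DU_cont (h : Flow Ω ν T r U) : ContinuousOn (DU T U) (Ico 0 T ×ˢ univ) :=
  (h.sm.continuousOn_fderivWithin (T3.udp T) (by simp)).clm_apply continuousOn_const

theorem U_sm (h : Flow Ω ν T r U) {t : ℝ} (ht : t ∈ Ico 0 T) : ContDiff ℝ ∞ (U t) :=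
  h.sm.comp_contDiff (contDiff_const.prodMk contDiff_id) fun _ => ⟨ht, mem_univ _⟩

theorem U_test (h : Flow Ω ν T r U) {t : ℝ} (ht : t ∈ Ico 0 T) : IsTest Ω (U t) := by
  obtain ⟨K, hK, hKΩ, h0⟩ := h.cpt
  have h1 : tsupport (U t) ⊆ K := by
    refine closure_minimal ?_ hK.isClosed
    intro x hx
    by_contra hc
    exact hx (h0 t ht x hc)
  exact ⟨U_sm h ht, hK.of_isClosed_subset (isClosed_tsupport _) h1, h1.trans hKΩ, h.div t ht⟩

theorem flow_bounds (h : Flow Ω ν T r U) {b : ℝ} (_hb0 : 0 ≤ b) (hb : b < T) :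
    ∃ (K : Set E3) (M : ℝ), IsCompact K ∧ 0 ≤ M ∧
      (∀ t ∈ Ico 0 T, ∀ x, x ∉ K → U t x = 0 ∧ DU T U (t, x) = 0) ∧
      ∀ t ∈ Icc 0 b, ∀ x, ‖U t x‖ ≤ M ∧ ‖DU T U (t, x)‖ ≤ M := by
  obtain ⟨K, hK, hKΩ, h0⟩ := h.cpt
  have hsub : Icc 0 b ×ˢ K ⊆ Ico 0 T ×ˢ (univ : Set E3) := fun z hz =>
    ⟨⟨hz.1.1, lt_of_le_of_lt hz.1.2 hb⟩, mem_univ _⟩
  have hc : IsCompact (Icc 0 b ×ˢ K) := isCompact_Icc.prod hK
  obtain ⟨M1, hM1⟩ := hc.exists_bound_of_continuousOn (h.sm.continuousOn.mono hsub)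
  obtain ⟨M2, hM2⟩ := hc.exists_bound_of_continuousOn ((DU_cont h).mono hsub)
  have hz : ∀ t ∈ Ico 0 T, ∀ x, x ∉ K → U t x = 0 ∧ DU T U (t, x) = 0 := by
    intro t ht x hx
    refine ⟨h0 t ht x hx, ?_⟩
    have h1 : HasDerivWithinAt (fun τ => U τ x) 0 (Ico 0 T) t :=
      (hasDerivWithinAt_const t (Ico 0 T) (0 : E3)).congr (fun s hs => h0 s hs x hx)
        (h0 t ht x hx)
    exact (T3.udo T t ht).eq_deriv _ (hasD h ht x) h1
  refine ⟨K, max 0 (max M1 M2), hK, le_max_left _ _, hz, fun t ht x => ?_⟩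
  have ht' : t ∈ Ico 0 T := ⟨ht.1, lt_of_le_of_lt ht.2 hb⟩
  by_cases hx : x ∈ K
  · exact ⟨(hM1 (t, x) ⟨ht, hx⟩).trans ((le_max_left _ _).trans (le_max_right _ _)),
      (hM2 (t, x) ⟨ht, hx⟩).trans ((le_max_right _ _).trans (le_max_right _ _))⟩
  · obtain ⟨h1, h2⟩ := hz t ht' x hx
    rw [h1, h2, norm_zero]
    exact ⟨le_max_left _ _, le_max_left _ _⟩

theorem U_lip (h : Flow Ω ν T r U) {b : ℝ} (hb : b < T) {M : ℝ}
    (hM : ∀ t ∈ Icc 0 b, ∀ x, ‖U t x‖ ≤ M ∧ ‖DU T U (t, x)‖ ≤ M) {s t : ℝ}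
    (hs : s ∈ Icc 0 b) (ht : t ∈ Icc 0 b) (x : E3) : ‖U s x - U t x‖ ≤ M * |s - t| := by
  have hsub : Icc 0 b ⊆ Ico 0 T := fun z hz => ⟨hz.1, lt_of_le_of_lt hz.2 hb⟩
  exact Convex.norm_image_sub_le_of_norm_hasDerivWithin_le (f := fun τ => U τ x)
    (f' := fun τ => DU T U (τ, x)) (fun τ hτ => (hasD h (hsub hτ) x).mono hsub)
    (fun τ hτ => (hM τ hτ x).2) (convex_Icc 0 b) ht hs

theorem U_lip_L2 (h : Flow Ω ν T r U) {b : ℝ} (hb0 : 0 ≤ b) (hb : b < T) :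
    ∃ C : ℝ, 0 ≤ C ∧ ∀ t ∈ Icc 0 b, ∀ s ∈ Icc t b, ‖cv Ω (U s) - cv Ω (U t)‖ ≤ C * (s - t) := by
  obtain ⟨K, M, hK, hM0, hz, hM⟩ := flow_bounds h hb0 hb
  have hKm : volume.restrict Ω K ≠ ⊤ :=
    ne_top_of_le_ne_top hK.measure_lt_top.ne (Measure.restrict_apply_le Ω K)
  obtain ⟨g, hg⟩ : ∃ g : Lp ℝ 2 (volume.restrict Ω),
    g = indicatorConstLp 2 hK.measurableSet hKm M := ⟨_, rfl⟩
  refine ⟨‖g‖, norm_nonneg _, fun t ht s hs => ?_⟩
  have hs' : s ∈ Icc 0 b := ⟨ht.1.trans hs.1, hs.2⟩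
  have htT : t ∈ Ico 0 T := ⟨ht.1, lt_of_le_of_lt ht.2 hb⟩
  have hsT : s ∈ Ico 0 T := ⟨hs'.1, lt_of_le_of_lt hs'.2 hb⟩
  rw [mul_comm]
  apply Lp.norm_le_mul_norm_of_ae_le_mul
  have e1 := cv_coe (((U_test h hsT).memLp 2).restrict Ω)
  have e2 := cv_coe (((U_test h htT).memLp 2).restrict Ω)
  have e3 := indicatorConstLp_coeFn (p := 2) (hs := hK.measurableSet) (hμs := hKm) (c := M)
  filter_upwards [Lp.coeFn_sub (cv Ω (U s)) (cv Ω (U t)), e1, e2, e3] with x a1 a2 a3 a4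
  rw [a1, Pi.sub_apply, a2, a3, hg, a4]
  by_cases hx : x ∈ K
  · rw [indicator_of_mem hx, Real.norm_of_nonneg hM0]
    have := U_lip h hb hM hs' ht x
    rw [abs_of_nonneg (by linarith [hs.1])] at this
    linarith
  · rw [indicator_of_notMem hx, (hz s hsT x hx).1, (hz t htT x hx).1]
    simp

theorem dt_memLp (h : Flow Ω ν T r U) {t : ℝ} (ht : t ∈ Ico 0 T) :
    MemLp (dt T U t) 2 (volume.restrict Ω) := by
  obtain ⟨K, M, hK, hM0, hz, hM⟩ := flow_bounds h ht.1 ht.2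
  have h1 : dt T U t = fun y => DU T U (t, y) := funext fun y => dt_eq h ht y
  rw [h1]
  refine memLp_cc ?_ ?_
  · exact (DU_cont h).comp_continuous (continuous_const.prodMk continuous_id)
      (fun _ => ⟨ht, mem_univ _⟩)
  · refine HasCompactSupport.of_support_subset_isCompact hK fun x hx => ?_
    by_contra hc
    exact hx (hz t ht x hc).2

theorem flow_deriv (h : Flow Ω ν T r U) {b : ℝ} (hb : b < T) {t : ℝ} (ht : t ∈ Ico 0 b)
    (v : L2V Ω) :
    HasDerivWithinAt (fun s => ⟪cv Ω (U s), v⟫_ℝ) ⟪cv Ω (dt T U t), v⟫_ℝ (Ici t) t := by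
  have hb0 : 0 ≤ b := ht.1.trans ht.2.le
  obtain ⟨K, M, hK, hM0, hz, hM⟩ := flow_bounds h hb0 hb
  have htT : t ∈ Ico 0 T := ⟨ht.1, ht.2.trans hb⟩
  have hI : ∀ s ∈ Ico 0 T, ⟪cv Ω (U s), v⟫_ℝ = ∫ x in Ω, ⟪U s x, v x⟫_ℝ := by
    intro s hs
    rw [L2.inner_def]
    apply integral_congr_ae
    filter_upwards [cv_coe (((U_test h hs).memLp 2).restrict Ω)] with x hx
    rw [hx]
  have hInt : ∀ s ∈ Ico 0 T, Integrable (fun x => ⟪U s x, v x⟫_ℝ) (volume.restrict Ω) := by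
    intro s hs
    exact int_inn (((U_test h hs).memLp 2).restrict Ω) (Lp.memLp v)
  rw [← hasDerivWithinAt_Ioi_iff_Ici, hasDerivWithinAt_iff_tendsto_slope' (by simp)]
  have h1 : ∀ᶠ s in 𝓝[>] t, slope (fun s => ⟪cv Ω (U s), v⟫_ℝ) t s =
      ∫ x in Ω, ⟪(s - t)⁻¹ • (U s x - U t x), v x⟫_ℝ := by
    filter_upwards [Ioo_mem_nhdsGT ht.2] with s hs
    have hsT : s ∈ Ico 0 T := ⟨ht.1.trans hs.1.le, hs.2.trans hb⟩
    rw [slope_def_field, hI s hsT, hI t htT, ← integral_sub (hInt s hsT) (hInt t htT), div_eq_inv_mul,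
      ← integral_const_mul]
    congr 1
    funext x
    rw [real_inner_smul_left, inner_sub_left]
  rw [tendsto_congr' h1]
  have h2 : ⟪cv Ω (dt T U t), v⟫_ℝ = ∫ x in Ω, ⟪DU T U (t, x), v x⟫_ℝ := by
    rw [L2.inner_def]
    apply integral_congr_ae
    filter_upwards [cv_coe (dt_memLp h htT)] with x hx
    rw [hx, dt_eq h htT]
  rw [h2]
  refine tendsto_integral_filter_of_dominated_convergence
    (fun x => ‖K.indicator (fun _ => M) x‖ * ‖v x‖) ?_ ?_ ?_ ?_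
  · filter_upwards [Ioo_mem_nhdsGT ht.2] with s hs
    have hsT : s ∈ Ico 0 T := ⟨ht.1.trans hs.1.le, hs.2.trans hb⟩
    have c1 := (U_sm h hsT).continuous
    have c2 := (U_sm h htT).continuous
    have : Continuous fun x => (s - t)⁻¹ • (U s x - U t x) := by fun_prop
    exact this.aestronglyMeasurable.inner (Lp.aestronglyMeasurable v)
  · filter_upwards [Ioo_mem_nhdsGT ht.2] with s hs
    have hsT : s ∈ Ico 0 T := ⟨ht.1.trans hs.1.le, hs.2.trans hb⟩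
    refine ae_of_all _ fun x => ?_
    refine (norm_inner_le_norm _ _).trans (mul_le_mul_of_nonneg_right ?_ (norm_nonneg _))
    have hst : 0 < s - t := by linarith [hs.1]
    rw [norm_smul, norm_inv, Real.norm_of_nonneg hst.le]
    by_cases hx : x ∈ K
    · rw [indicator_of_mem hx, Real.norm_of_nonneg hM0]
      have := U_lip h hb hM (s := s) (t := t) ⟨hsT.1, hs.2.le⟩ ⟨ht.1, ht.2.le⟩ x
      rw [abs_of_pos hst] at this
      rw [inv_mul_le_iff₀ hst]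
      linarith
    · rw [indicator_of_notMem hx, (hz s hsT x hx).1, (hz t htT x hx).1]
      simp
  · have hKi : MemLp (K.indicator (fun _ => M)) 2 (volume.restrict Ω) :=
      memLp_indicator_const 2 hK.measurableSet M (Or.inr
        (ne_top_of_le_ne_top hK.measure_lt_top.ne (Measure.restrict_apply_le Ω K)))
    exact hKi.norm.integrable_mul (Lp.memLp v).norm
  · refine ae_of_all _ fun x => ?_
    have h3 : HasDerivWithinAt (fun τ => U τ x) (DU T U (t, x)) (Ioi t) t := by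
      refine (hasD h htT x).mono_of_mem_nhdsWithin ?_
      filter_upwards [Ioo_mem_nhdsGT htT.2] with s hs
      exact ⟨htT.1.trans hs.1.le, hs.2⟩
    rw [hasDerivWithinAt_iff_tendsto_slope' (by simp)] at h3
    have h4 : Tendsto (fun s => slope (fun τ => U τ x) t s) (𝓝[>] t) (𝓝 (DU T U (t, x))) := h3
    exact h4.inner tendsto_const_nhds

end flow

/-! ### The energy inequality -/

theorem UT_bound {Ω : Set E3} {U : E3 → E3} (hU : Continuous U) {B : ℝ} (hB : ∀ x, ‖U x‖ ≤ B)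
    (w : L2V Ω) : ‖(memLp_Utn hU hB w).toLp _‖ ≤ B * ‖w‖ := by
  apply Lp.norm_le_mul_norm_of_ae_le_mul
  filter_upwards [(memLp_Utn hU hB w).coeFn_toLp] with x hx
  rw [hx, norm_tn]
  exact mul_le_mul_of_nonneg_right (hB x) (norm_nonneg _)

theorem key_est {Ω : Set E3} (hΩ : MeasurableSet Ω) {U : E3 → E3} (hU : IsTest Ω U) {B : ℝ}
    (hB : ∀ x, ‖U x‖ ≤ B) {u : L2V Ω} {G : L2M Ω} (hu : (u, G) ∈ graphW Ω) :
    ⟪tensL u, G - cm Ω (jac U)⟫_ℝ - ⟪cm Ω (fun x => tens (U x)), G - cm Ω (jac U)⟫_ℝ ≤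
      B * ‖u - cv Ω U‖ * ‖G - cm Ω (jac U)‖ := by
  obtain ⟨w, hw⟩ : ∃ w, w = u - cv Ω U := ⟨_, rfl⟩
  obtain ⟨z, hz⟩ : ∃ z, z = G - cm Ω (jac U) := ⟨_, rfl⟩
  rw [← hw, ← hz]
  have hwz : (w, z) ∈ graphW Ω := by
    rw [hw, hz]
    exact (graphW Ω).sub_mem hu (test_mem hU)
  have hm1 : MemLp (fun x => tens (U x)) 2 (volume.restrict Ω) := by
    refine memLp_cc (H772R2.NS.continuous_tens.comp hU.smooth.continuous) (hU.compact.mono ?_)
    intro x hx h0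
    apply hx
    simp only [h0]
    ext p; simp [H772R2.NS.tens_apply]
  have hUc := hU.smooth.continuous
  have e1 : tensL u - cm Ω (fun x => tens (U x)) =
      tensL w + TU hUc hB w + (memLp_Utn hUc hB w).toLp _ := by
    apply Lp.ext
    have huw : (u : E3 → E3) =ᵐ[volume.restrict Ω] fun x => w x + U x := by
      have h1 : u = w + cv Ω U := by rw [hw]; abel
      have h2 := Lp.coeFn_add w (cv Ω U)
      rw [← h1] at h2
      filter_upwards [h2, cv_coe ((hU.memLp 2).restrict Ω)] with x a b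
      rw [a, Pi.add_apply, b]
    filter_upwards [Lp.coeFn_sub (tensL u) (cm Ω (fun x => tens (U x))), cm_coe hm1,
      H772R2.NS.tensL_coe hΩ hu, huw, H772R2.NS.tensL_coe hΩ hwz, TU_coe hUc hB w,
      (memLp_Utn hUc hB w).coeFn_toLp, Lp.coeFn_add (tensL w) (TU hUc hB w),
      Lp.coeFn_add (tensL w + TU hUc hB w) ((memLp_Utn hUc hB w).toLp _)] with
      x a1 a2 a3 a4 a5 a6 a7 a8 a9
    rw [a1, Pi.sub_apply, a2, a3, a4, tens_add, a9, Pi.add_apply, a8, Pi.add_apply, a5, a6, a7]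
  rw [← inner_sub_left, e1, inner_add_left, inner_add_left, H772R2.NS.inner_tensL_zero hΩ hwz,
    tri1 hU hB hwz, zero_add, zero_add]
  refine (real_inner_le_norm _ _).trans ?_
  exact mul_le_mul_of_nonneg_right (UT_bound hUc hB w) (norm_nonneg _)

/-- (D1) weak-strong uniqueness -/
theorem t_D1 : S_D1 := by
  intro ι Ω ν T T' r U u u' G G' hΩo hν hrc hrs hrΩ hF hS hT' h0 t₁ ht₁ ht₁T
  have hΩ := hΩo.measurableSet
  have hsub1 : ∀ t ∈ Icc 0 t₁, t ∈ Ico 0 T := fun t ht => ⟨ht.1, lt_of_le_of_lt ht.2 ht₁T⟩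
  have hsub2 : ∀ t ∈ Icc 0 t₁, t ∈ Icc 0 T' := fun t ht => ⟨ht.1, ht.2.trans ht₁.2⟩
  have hgr : ∀ t ∈ Icc 0 T', (u t, G t) ∈ graphW Ω := fun t ht => mem_graphW.2 (hS.grad t ht)
  -- the constraints
  have hrL : ∀ i, MemLp (r i) 2 (volume.restrict Ω) := fun i => memLp_cc (hrc i) (hrs i)
  have hconU : ∀ t ∈ Ico 0 T, Con r (cv Ω (U t)) := by
    intro t ht i
    have h1 : ∫ x in Ω, ⟪(cv Ω (U t) : E3 → E3) x, r i x⟫_ℝ = ∫ x in Ω, ⟪U t x, r i x⟫_ℝ := by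
      apply integral_congr_ae
      filter_upwards [cv_coe (((U_test hF ht).memLp 2).restrict Ω)] with x hx
      rw [hx]
    rw [h1, int_Om]
    · exact hF.con t ht i
    · intro x hx
      rw [test_out (U_test hF ht) hx, inner_zero_left]
  have hcon : ∀ t ∈ Icc 0 t₁, Con r (u t - cv Ω (U t)) := by
    intro t ht i
    have h1 := hS.con t (hsub2 t ht) i
    have h2 := hconU t (hsub1 t ht) i
    have h3 : ∫ x in Ω, ⟪(u t - cv Ω (U t) : L2V Ω) x, r i x⟫_ℝ =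
        ∫ x in Ω, (⟪u t x, r i x⟫_ℝ - ⟪(cv Ω (U t) : E3 → E3) x, r i x⟫_ℝ) := by
      apply integral_congr_ae
      filter_upwards [Lp.coeFn_sub (u t) (cv Ω (U t))] with x hx
      rw [hx, Pi.sub_apply, inner_sub_left]
    rw [h3, integral_sub, h1, h2, sub_zero]
    · exact int_inn (Lp.memLp _) (hrL i)
    · exact int_inn (Lp.memLp _) (hrL i)
  -- the right-hand side is continuous in time
  obtain ⟨R, hR⟩ : ∃ R : ℝ → L2M Ω, R = fun t => tensL (u t) - ν • G t := ⟨_, rfl⟩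
  have huc : ContinuousOn u (Icc 0 T') := H1T.cont hT'.le hS.hu
  have hGc : ContinuousOn G (Icc 0 T') := H1T.cont hT'.le hS.hG
  have hRc : ContinuousOn R (Icc 0 T') := by
    have c0 : ContinuousOn (fun t => (u t, G t)) (Icc 0 T') := huc.prodMk hGc
    have hmaps : MapsTo (fun t => (u t, G t)) (Icc 0 T') (graphW Ω : Set (L2V Ω × L2M Ω)) :=
      fun t ht => hgr t ht
    have c1' := ContinuousOn.comp (H772R2.NS.tensL_continuousOn hΩ) c0 hmaps
    have c1 : ContinuousOn (fun t => tensL (u t)) (Icc 0 T') := c1'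
    have c2 : ContinuousOn (fun t => ν • G t) (Icc 0 T') := hGc.fun_const_smul ν
    rw [hR]
    exact c1.sub c2
  have heqn : ∀ v z, (v, z) ∈ graphW Ω → Con r v → ∀ t ∈ Icc 0 T',
      ⟪u t, v⟫_ℝ = ⟪u 0, v⟫_ℝ + ∫ s in (0 : ℝ)..t, ⟪R s, z⟫_ℝ := by
    intro v z hvz hv t ht
    have h1 := hS.eqn v z (mem_graphW.1 hvz) hv t ht
    have h2 : ∫ s in (0 : ℝ)..t, ((∫ x in Ω, ⟪u s x, mv (z x) (u s x)⟫_ℝ) - ν * ⟪G s, z⟫_ℝ) =
        ∫ s in (0 : ℝ)..t, ⟪R s, z⟫_ℝ := by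
      apply intervalIntegral.integral_congr
      intro s hs
      rw [uIcc_of_le ht.1] at hs
      simp only [hR]
      rw [inner_sub_left, real_inner_smul_left]
      congr 1
      rw [L2.inner_def]
      apply integral_congr_ae
      filter_upwards [H772R2.NS.tensL_coe hΩ (hgr s ⟨hs.1, hs.2.trans ht.2⟩)] with x hx
      rw [hx, tens_eq, inner_tn]
    rw [h2] at h1
    linarith
  -- bounds
  obtain ⟨M, hM⟩ := hS.bdd
  obtain ⟨C, hC0, hC⟩ := U_lip_L2 (Ω := Ω) hF ht₁.1 ht₁T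
  obtain ⟨K, B, -, hB0, -, hB⟩ := flow_bounds hF ht₁.1 ht₁T
  obtain ⟨w, hw⟩ : ∃ w : ℝ → L2V Ω, w = fun t => u t - cv Ω (U t) := ⟨_, rfl⟩
  obtain ⟨z, hz⟩ : ∃ z : ℝ → L2M Ω, z = fun t => G t - cm Ω (jac (U t)) := ⟨_, rfl⟩
  have hwz : ∀ t ∈ Icc 0 t₁, (w t, z t) ∈ graphW Ω := by
    intro t ht
    rw [hw, hz]
    exact (graphW Ω).sub_mem (hgr t (hsub2 t ht)) (test_mem (U_test hF (hsub1 t ht)))
  have hwL : ∀ t ∈ Icc 0 t₁, ∀ s ∈ Icc t t₁, ‖w s - w t‖ ≤ (M + C) * (s - t) := by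
    intro t ht s hs
    have h1 := H1T.lip hS.hu hM ht.1 hs.1 (hs.2.trans ht₁.2)
    have h2 := hC t ht s hs
    have h3 : w s - w t = (u s - u t) - (cv Ω (U s) - cv Ω (U t)) := by
      simp only [hw]; abel
    rw [h3]
    refine (norm_sub_le _ _).trans ?_
    linarith
  have hwc : ContinuousOn w (Icc 0 t₁) := by
    rw [Metric.continuousOn_iff]
    intro t ht ε hε
    have hMC : 0 ≤ |M + C| := abs_nonneg _
    refine ⟨ε / (|M + C| + 1), by positivity, fun s hs hst => ?_⟩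
    rw [Real.dist_eq, lt_div_iff₀ (by positivity)] at hst
    rw [dist_eq_norm]
    have key : ‖w s - w t‖ ≤ |M + C| * |s - t| := by
      rcases le_total t s with h | h
      · have h1 := hwL t ht s ⟨h, hs.2⟩
        rw [abs_of_nonneg (by linarith : (0 : ℝ) ≤ s - t)]
        exact h1.trans (mul_le_mul_of_nonneg_right (le_abs_self _) (by linarith))
      · have h1 := hwL s hs t ⟨h, ht.2⟩
        rw [norm_sub_rev, abs_sub_comm, abs_of_nonneg (by linarith : (0 : ℝ) ≤ t - s)]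
        exact h1.trans (mul_le_mul_of_nonneg_right (le_abs_self _) (by linarith))
    nlinarith [abs_nonneg (s - t)]
  -- the derivative of the energy
  have hder : ∀ t ∈ Ico 0 t₁, ∃ a : ℝ, HasDerivWithinAt (fun s => ‖w s‖ ^ 2) a (Ici t) t ∧
      a ≤ B ^ 2 / (2 * ν) * ‖w t‖ ^ 2 := by
    intro t ht
    have ht' : t ∈ Icc 0 t₁ := ⟨ht.1, ht.2.le⟩
    have htT := hsub1 t ht'
    have hUt := U_test hF htT
    have hw1 := hwz t ht'
    have hw2 : Con r (w t) := by rw [hw]; exact hcon t ht'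
    have d1 : HasDerivWithinAt (fun s => ⟪u s, w t⟫_ℝ) ⟪R t, z t⟫_ℝ (Ici t) t := by
      have h1 := ftc_right (φ := fun s => ⟪R s, z t⟫_ℝ) (b := T')
        (hRc.inner continuousOn_const) (t := t) ⟨ht.1, lt_of_lt_of_le ht.2 ht₁.2⟩
      have h2 := h1.const_add ⟪u 0, w t⟫_ℝ
      refine h2.congr_of_eventuallyEq ?_ ?_
      · filter_upwards [Icc_mem_nhdsGE (lt_of_lt_of_le ht.2 ht₁.2)] with s hs
        exact heqn (w t) (z t) hw1 hw2 s ⟨ht.1.trans hs.1, hs.2⟩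
      · exact heqn (w t) (z t) hw1 hw2 t (hsub2 t ht')
    have d2 := flow_deriv hF ht₁T ht (w t)
    have d3 : HasDerivWithinAt (fun s => ⟪w s, w t⟫_ℝ)
        (⟪R t, z t⟫_ℝ - ⟪cv Ω (dt T U t), w t⟫_ℝ) (Ici t) t := by
      refine (d1.sub d2).congr (fun s _ => ?_) ?_
      · rw [hw]; simp only [Pi.sub_apply, inner_sub_left]
      · rw [hw]; simp only [Pi.sub_apply, inner_sub_left]
    refine ⟨_, deriv_norm_sq ht.2 (hwL t ht') d3, ?_⟩
    -- the residual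
    have hadv : MemLp (adv (U t) (U t)) 2 (volume.restrict Ω) :=
      memLp_cc (T4.Sm.adv (test_Sm hUt) hUt.smooth).sm.continuous
        (T4.Sm.adv (test_Sm hUt) hUt.smooth).cs
    have hlap : MemLp (lap (U t)) 2 (volume.restrict Ω) :=
      memLp_cc (test_Sm hUt).lap.sm.continuous (test_Sm hUt).lap.cs
    have hres : ⟪cv Ω (dt T U t), w t⟫_ℝ + ⟪cv Ω (adv (U t) (U t)), w t⟫_ℝ -
        ν * ⟪cv Ω (lap (U t)), w t⟫_ℝ = 0 := by
      have h1 := hF.res t htT (w t) hw2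
      rw [← real_inner_smul_left, ← inner_add_left, ← inner_sub_left, real_inner_comm,
        L2.inner_def, ← h1]
      apply integral_congr_ae
      filter_upwards [cv_coe (dt_memLp hF htT), cv_coe hadv, cv_coe hlap,
        Lp.coeFn_sub (cv Ω (dt T U t) + cv Ω (adv (U t) (U t))) (ν • cv Ω (lap (U t))),
        Lp.coeFn_add (cv Ω (dt T U t)) (cv Ω (adv (U t) (U t))),
        Lp.coeFn_smul ν (cv Ω (lap (U t)))] with x a1 a2 a3 a4 a5 a6
      rw [a4, Pi.sub_apply, a5, Pi.add_apply, a6, Pi.smul_apply, a1, a2, a3]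
    have t2 := tri2 hUt hw1
    have t3 := tri3 hUt hw1
    have t4 := key_est hΩ hUt (fun x => (hB t ht' x).1) (hgr t (hsub2 t ht'))
    have e1 : ⟪R t, z t⟫_ℝ = ⟪tensL (u t), z t⟫_ℝ - ν * ⟪G t, z t⟫_ℝ := by
      rw [hR]; simp only [inner_sub_left, real_inner_smul_left]
    have e2 : ⟪G t, z t⟫_ℝ = ⟪cm Ω (jac (U t)), z t⟫_ℝ + ‖z t‖ ^ 2 := by
      have : G t = cm Ω (jac (U t)) + z t := by simp only [hz]; abel
      conv_lhs => rw [this]
      rw [inner_add_left, real_inner_self_eq_norm_sq]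
    have e3 : w t = u t - cv Ω (U t) := by rw [hw]
    have e4 : z t = G t - cm Ω (jac (U t)) := by rw [hz]
    rw [← e3, ← e4] at t4
    simp only at t2 t3
    rw [e1, e2]
    have hfin : B * ‖w t‖ * ‖z t‖ - ν * ‖z t‖ ^ 2 ≤ B ^ 2 / (4 * ν) * ‖w t‖ ^ 2 := by
      have h1 : 0 ≤ (2 * ν * ‖z t‖ - B * ‖w t‖) ^ 2 := sq_nonneg _
      rw [div_mul_eq_mul_div, le_div_iff₀ (by positivity)]
      nlinarith
    have hfin2 : B ^ 2 / (2 * ν) * ‖w t‖ ^ 2 = 2 * (B ^ 2 / (4 * ν) * ‖w t‖ ^ 2) := by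
      field_simp
      ring
    rw [hfin2]
    nlinarith
  choose! N' hN1 hN2 using hder
  have hw0 : w 0 = 0 := by
    rw [hw]
    simp only
    rw [sub_eq_zero]
    apply Lp.ext
    refine h0.trans ?_
    exact (cv_coe (((U_test hF ⟨le_rfl, hF.T0⟩).memLp 2).restrict Ω)).symm
  have hgron := le_gronwallBound_of_liminf_deriv_right_le (f := fun s => ‖w s‖ ^ 2) (f' := N')
    (δ := 0) (K := B ^ 2 / (2 * ν)) (ε := 0) (a := 0) (b := t₁) (hwc.norm.pow 2)
    (fun x hx rr hr => by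
      have := (hN1 x hx).liminf_right_slope_le hr
      refine this.mono fun s hs => ?_
      rwa [slope_def_field, div_eq_inv_mul] at hs)
    (by simp [hw0]) (fun x hx => by simpa using hN2 x hx) t₁ ⟨ht₁.1, le_rfl⟩
  rw [gronwallBound_ε0_δ0] at hgron
  have hwt : w t₁ = 0 := by
    have h1 : ‖w t₁‖ ^ 2 = 0 := le_antisymm hgron (by positivity)
    exact norm_eq_zero.1 (pow_eq_zero_iff (by norm_num) |>.1 h1)
  have ht1' : t₁ ∈ Icc 0 t₁ := ⟨ht₁.1, le_rfl⟩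
  have hzt : z t₁ = 0 := by
    have h1 := hwz t₁ ht1'
    rw [hwt] at h1
    exact H772R2.NS.graphW_uniq hΩo _ h1
  have hUt := U_test hF (hsub1 t₁ ht1')
  constructor
  · have h1 : u t₁ = cv Ω (U t₁) := by
      rw [hw] at hwt
      exact sub_eq_zero.1 hwt
    rw [h1]
    exact cv_coe ((hUt.memLp 2).restrict Ω)
  · have h1 : G t₁ = cm Ω (jac (U t₁)) := by
      rw [hz] at hzt
      exact sub_eq_zero.1 hzt
    rw [h1]
    exact cm_coe ((hUt.jac_memLp 2).restrict Ω)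

end Pool.Agent.N976.DI.D1
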