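import Pool.Agent.N976.DI.Def
import Pool.Agent.N976.SC.T4b

/-!
# The smooth flow is a strong solution of the constrained Dirichlet problem
-/

open Set Filter Topology MeasureTheory
open scoped ContDiff InnerProductSpace ENNReal

set_option autoImplicit false
set_option linter.unusedSectionVars false

namespace Pool.Agent.N976.DI

open Pool.Agent.N976.SC
open H772R2.NS (jac IsTest L2V L2M H1graph M3)

namespace D2


section cls


variable {E : Type} [NormedAddCommGroup E] [InnerProductSpace ℝ E] [FiniteDimensional ℝ E]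

/-- the class of a function in `L²(Ω)` -/
noncomputable def cls (Ω : Set E3) (g : E3 → E) : Lp E 2 (volume.restrict Ω) := by
  classical
  exact if h : MemLp g 2 (volume.restrict Ω) then h.toLp g else 0

lemma cls_ae {Ω : Set E3} {g : E3 → E} (h : MemLp g 2 (volume.restrict Ω)) :
    cls Ω g =ᵐ[volume.restrict Ω] g := by
  unfold cls
  rw [dif_pos h]
  exact h.coeFn_toLp

/-- continuous functions which vanish outside of a compact set -/
structure CK (K : Set E3) (g : E3 → E) : Prop where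
  cont : Continuous g
  out : ∀ x, x ∉ K → g x = 0

lemma CK.cs {K : Set E3} (hK : IsCompact K) {g : E3 → E} (h : CK K g) : HasCompactSupport g :=
  HasCompactSupport.of_support_subset_isCompact hK fun x hx => by
    by_contra hc
    exact hx (h.out x hc)

lemma CK.memLp {K : Set E3} (hK : IsCompact K) {g : E3 → E} (h : CK K g) (Ω : Set E3) :
    MemLp g 2 (volume.restrict Ω) :=
  (h.cont.memLp_of_hasCompactSupport (h.cs hK)).restrict Ω

lemma CK.ae {K : Set E3} (hK : IsCompact K) {g : E3 → E} (h : CK K g) (Ω : Set E3) :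
    cls Ω g =ᵐ[volume.restrict Ω] g := cls_ae (h.memLp hK Ω)

/-- the norm of a class -/
lemma norm_cls_comb {K : Set E3} (hK : IsCompact K) (Ω : Set E3) {f g h : E3 → E} (c : ℝ)
    (hf : CK K f) (hg : CK K g) (hh : CK K h) {ε : ℝ} (hε : 0 ≤ ε)
    (hb : ∀ x ∈ K, ‖f x - g x - c • h x‖ ≤ ε) :
    ‖cls Ω f - cls Ω g - c • cls Ω h‖ ≤ ε * (volume K).toReal ^ (1 / 2 : ℝ) := by
  have h1 : (↑↑(cls Ω f - cls Ω g - c • cls Ω h) : E3 → E) =ᵐ[volume.restrict Ω]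
      fun x => f x - g x - c • h x := by
    filter_upwards [Lp.coeFn_sub (cls Ω f - cls Ω g) (c • cls Ω h), Lp.coeFn_sub (cls Ω f) (cls Ω g),
      Lp.coeFn_smul c (cls Ω h), hf.ae hK Ω, hg.ae hK Ω, hh.ae hK Ω] with x a1 a2 a3 a4 a5 a6
    rw [a1, Pi.sub_apply, a2, Pi.sub_apply, a3, Pi.smul_apply, a4, a5, a6]
  rw [Lp.norm_def, eLpNorm_congr_ae h1]
  have h2 : eLpNorm (fun x => f x - g x - c • h x) 2 (volume.restrict Ω) ≤
      ENNReal.ofReal ε * (volume K) ^ (1 / 2 : ℝ) := by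
    calc eLpNorm (fun x => f x - g x - c • h x) 2 (volume.restrict Ω)
        ≤ eLpNorm (fun x => f x - g x - c • h x) 2 volume :=
          eLpNorm_mono_measure _ Measure.restrict_le_self
      _ ≤ eLpNorm (K.indicator fun _ => ε) 2 volume := by
          refine eLpNorm_mono_real fun x => ?_
          by_cases hx : x ∈ K
          · rw [indicator_of_mem hx]
            exact hb x hx
          · rw [indicator_of_notMem hx, hf.out x hx, hg.out x hx, hh.out x hx]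
            simp
      _ ≤ ENNReal.ofReal ε * (volume K) ^ (1 / 2 : ℝ) := by
          refine (eLpNorm_indicator_const_le ε 2).trans ?_
          rw [Real.enorm_of_nonneg hε]
          simp
  have h3 : volume K ≠ ⊤ := hK.measure_lt_top.ne
  have h4 := ENNReal.toReal_mono (by
    exact ENNReal.mul_ne_top ENNReal.ofReal_ne_top (ENNReal.rpow_ne_top_of_nonneg (by norm_num) h3)) h2
  rw [ENNReal.toReal_mul, ENNReal.toReal_ofReal hε, ← ENNReal.toReal_rpow] at h4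
  exact h4

lemma norm_cls_sub {K : Set E3} (hK : IsCompact K) (Ω : Set E3) {f g : E3 → E}
    (hf : CK K f) (hg : CK K g) {ε : ℝ} (hε : 0 ≤ ε)
    (hb : ∀ x ∈ K, ‖f x - g x‖ ≤ ε) :
    ‖cls Ω f - cls Ω g‖ ≤ ε * (volume K).toReal ^ (1 / 2 : ℝ) := by
  have := norm_cls_comb hK Ω 0 hf hg hg hε (by simpa using hb)
  simpa using this

/-- continuity of a curve of classes -/
lemma cls_cont {K : Set E3} (hK : IsCompact K) (Ω : Set E3) {J : Set ℝ} {F : ℝ → E3 → E}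
    (hF : ContinuousOn (fun z : ℝ × E3 => F z.1 z.2) (J ×ˢ univ)) (hc : ∀ t ∈ J, CK K (F t)) :
    ContinuousOn (fun t => cls Ω (F t)) J := by
  intro t ht
  rw [Metric.continuousWithinAt_iff']
  intro ε hε
  set c : ℝ := (volume K).toReal ^ (1 / 2 : ℝ) with hcdef
  have hc0 : 0 ≤ c := by positivity
  have hu : {p : E × E | dist p.1 p.2 < ε / (c + 1)} ∈ uniformity E :=
    Metric.dist_mem_uniformity (by positivity)
  obtain ⟨v, hv, hv'⟩ := hK.mem_uniformity_of_prod (f := F) (s := J) (q := t)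
    (hF.mono (prod_mono le_rfl (subset_univ _))) ht hu
  filter_upwards [hv, self_mem_nhdsWithin] with s hs hsJ
  rw [dist_eq_norm]
  have h1 : ∀ x ∈ K, ‖F s x - F t x‖ ≤ ε / (c + 1) := fun x hx => by
    have := hv' s hs x hx
    simp only [Set.mem_ofPred_eq, dist_eq_norm] at this
    exact this.le
  have h2 := norm_cls_sub hK Ω (hc s hsJ) (hc t ht) (by positivity) h1
  refine h2.trans_lt ?_
  rw [div_mul_eq_mul_div, div_lt_iff₀ (by positivity)]
  nlinarith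

/-- the derivative of a curve of classes -/
lemma cls_deriv {K : Set E3} (hK : IsCompact K) (Ω : Set E3) {a b : ℝ} {F F' : ℝ → E3 → E}
    (hF' : ContinuousOn (fun z : ℝ × E3 => F' z.1 z.2) (Ioo a b ×ˢ univ))
    (hc : ∀ t ∈ Ioo a b, CK K (F t)) (hc' : ∀ t ∈ Ioo a b, CK K (F' t))
    (hd : ∀ t ∈ Ioo a b, ∀ x, HasDerivAt (fun τ => F τ x) (F' t x) t) {t : ℝ} (ht : t ∈ Ioo a b) :
    HasDerivAt (fun t => cls Ω (F t)) (cls Ω (F' t)) t := by
  rw [hasDerivAt_iff_isLittleO, Asymptotics.isLittleO_iff]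
  intro ε hε
  set c : ℝ := (volume K).toReal ^ (1 / 2 : ℝ) with hcdef
  have hc0 : 0 ≤ c := by positivity
  have hu : {p : E × E | dist p.1 p.2 < ε / (c + 1)} ∈ uniformity E :=
    Metric.dist_mem_uniformity (by positivity)
  obtain ⟨v, hv, hv'⟩ := hK.mem_uniformity_of_prod (f := F') (s := Ioo a b) (q := t)
    (hF'.mono (prod_mono le_rfl (subset_univ _))) ht hu
  rw [isOpen_Ioo.nhdsWithin_eq ht] at hv
  obtain ⟨δ, hδ, hδ'⟩ := Metric.mem_nhds_iff.1 (Filter.inter_mem hv (isOpen_Ioo.mem_nhds ht))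
  filter_upwards [Metric.ball_mem_nhds t hδ] with s hs
  have hs1 := hδ' hs
  have ht1 : t ∈ Metric.ball t δ := Metric.mem_ball_self hδ
  have h1 : ∀ x ∈ K, ‖F s x - F t x - (s - t) • F' t x‖ ≤ ε / (c + 1) * ‖s - t‖ := fun x hx => by
    have hg : ∀ τ ∈ Metric.ball t δ, HasDerivWithinAt (fun τ => F τ x - (τ - t) • F' t x)
        (F' τ x - F' t x) (Metric.ball t δ) τ := by
      intro τ hτ
      have h2 := hd τ (hδ' hτ).2 x
      have h3 : HasDerivAt (fun τ : ℝ => (τ - t) • F' t x) ((1 : ℝ) • F' t x) τ :=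
        ((hasDerivAt_id τ).sub_const t).smul_const (F' t x)
      rw [one_smul] at h3
      exact (h2.sub h3).hasDerivWithinAt
    have h4 := (convex_ball t δ).norm_image_sub_le_of_norm_hasDerivWithin_le
      (C := ε / (c + 1)) hg (fun τ hτ => by
        have := hv' τ (hδ' hτ).1 x hx
        simp only [Set.mem_ofPred_eq, dist_eq_norm] at this
        exact this.le) ht1 hs
    simp only [sub_self, zero_smul, sub_zero] at h4
    have h5 : F s x - F t x - (s - t) • F' t x = F s x - (s - t) • F' t x - F t x := by abel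
    rw [h5]
    exact h4
  have h2 := norm_cls_comb hK Ω (s - t) (hc s hs1.2) (hc t ht) (hc' t ht) (by positivity) h1
  refine h2.trans ?_
  have h6 : ε / (c + 1) * c ≤ ε := by
    rw [div_mul_eq_mul_div, div_le_iff₀ (by positivity)]
    nlinarith
  calc ε / (c + 1) * ‖s - t‖ * c = (ε / (c + 1) * c) * ‖s - t‖ := by ring
    _ ≤ ε * ‖s - t‖ := mul_le_mul_of_nonneg_right h6 (norm_nonneg _)

/-- the fundamental theorem for a curve of classes -/
lemma cls_ftc {K : Set E3} (hK : IsCompact K) (Ω : Set E3) {T : ℝ} {F F' : ℝ → E3 → E}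
    (hF : ContinuousOn (fun z : ℝ × E3 => F z.1 z.2) (Ico 0 T ×ˢ univ))
    (hF' : ContinuousOn (fun z : ℝ × E3 => F' z.1 z.2) (Ico 0 T ×ˢ univ))
    (hc : ∀ t ∈ Ico 0 T, CK K (F t)) (hc' : ∀ t ∈ Ico 0 T, CK K (F' t))
    (hd : ∀ t ∈ Ioo 0 T, ∀ x, HasDerivAt (fun τ => F τ x) (F' t x) t) {a b : ℝ} (ha : 0 ≤ a)
    (hab : a ≤ b) (hb : b < T) :
    cls Ω (F b) - cls Ω (F a) = ∫ s in a..b, cls Ω (F' s) := by
  have hsub : Icc a b ⊆ Ico 0 T := fun x hx => ⟨ha.trans hx.1, hx.2.trans_lt hb⟩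
  have h1 := (cls_cont hK Ω hF hc).mono hsub
  have h2 := (cls_cont hK Ω hF' hc').mono hsub
  rw [intervalIntegral.integral_eq_sub_of_hasDeriv_right_of_le hab h1 (f' := fun s => cls Ω (F' s))]
  · intro x hx
    have hx' : x ∈ Ioo 0 T := ⟨ha.trans_lt hx.1, hx.2.trans hb⟩
    exact (cls_deriv hK Ω (a := 0) (b := T) (hF'.mono (prod_mono Ioo_subset_Ico_self le_rfl))
      (fun t ht => hc t (Ioo_subset_Ico_self ht)) (fun t ht => hc' t (Ioo_subset_Ico_self ht))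
      hd hx').hasDerivWithinAt
  · exact (h2.mono (by rw [uIcc_of_le hab])).intervalIntegrable

end cls



section joint

variable {E : Type} [NormedAddCommGroup E] [NormedSpace ℝ E]

/-- the space-time domain -/
def SS (T : ℝ) : Set (ℝ × E3) := Ico 0 T ×ˢ univ

lemma ud (T : ℝ) : UniqueDiffOn ℝ (SS T) := (uniqueDiffOn_Ico 0 T).prod uniqueDiffOn_univ

lemma mem_SS {T t : ℝ} (ht : t ∈ Ico 0 T) (x : E3) : (t, x) ∈ SS T := ⟨ht, mem_univ _⟩

lemma mem_cl {T t : ℝ} (ht : t ∈ Ico 0 T) (x : E3) : (t, x) ∈ closure (interior (SS T)) := by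
  have hT : (0 : ℝ) < T := ht.1.trans_lt ht.2
  unfold SS
  rw [interior_prod_eq, interior_univ, interior_Ico, closure_prod_eq, closure_univ,
    closure_Ioo hT.ne]
  exact ⟨⟨ht.1, ht.2.le⟩, mem_univ _⟩

/-- derivative along time -/
lemma d_time {T : ℝ} {Φ : ℝ × E3 → E} (h : ContDiffOn ℝ ∞ Φ (SS T)) {t : ℝ} (ht : t ∈ Ico 0 T)
    (x : E3) : HasDerivWithinAt (fun τ => Φ (τ, x)) (fderivWithin ℝ Φ (SS T) (t, x) (1, 0))
      (Ico 0 T) t := by
  have h1 : HasFDerivWithinAt Φ (fderivWithin ℝ Φ (SS T) (t, x)) (SS T) (t, x) :=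
    ((h.differentiableOn (by simp)) (t, x) (mem_SS ht x)).hasFDerivWithinAt
  have h2 : HasDerivWithinAt (fun τ : ℝ => (τ, x)) ((1 : ℝ), (0 : E3)) (Ico 0 T) t :=
    ((hasDerivAt_id t).prodMk (hasDerivAt_const t x)).hasDerivWithinAt
  exact h1.comp_hasDerivWithinAt t h2 (fun τ hτ => mem_SS hτ x)

/-- derivative in space -/
lemma d_space {T : ℝ} {Φ : ℝ × E3 → E} (h : ContDiffOn ℝ ∞ Φ (SS T)) {t : ℝ} (ht : t ∈ Ico 0 T)
    (x : E3) : HasFDerivAt (fun y => Φ (t, y))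
      ((fderivWithin ℝ Φ (SS T) (t, x)).comp (ContinuousLinearMap.inr ℝ ℝ E3)) x := by
  have h1 : HasFDerivWithinAt Φ (fderivWithin ℝ Φ (SS T) (t, x)) (SS T) (t, x) :=
    ((h.differentiableOn (by simp)) (t, x) (mem_SS ht x)).hasFDerivWithinAt
  have h2 : HasFDerivWithinAt (fun y : E3 => (t, y)) (ContinuousLinearMap.inr ℝ ℝ E3) univ x :=
    (hasFDerivAt_prodMk_right t x).hasFDerivWithinAt
  have h3 := h1.comp x h2 (fun y _ => mem_SS ht y)
  rwa [hasFDerivWithinAt_univ] at h3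

lemma cd_D {T : ℝ} {Φ : ℝ × E3 → E} (h : ContDiffOn ℝ ∞ Φ (SS T)) :
    ContDiffOn ℝ ∞ (fderivWithin ℝ Φ (SS T)) (SS T) :=
  h.fderivWithin (ud T) (by simp)

lemma cd_slice {T : ℝ} {Φ : ℝ × E3 → E} (h : ContDiffOn ℝ ∞ Φ (SS T)) {t : ℝ}
    (ht : t ∈ Ico 0 T) : ContDiff ℝ ∞ (fun y => Φ (t, y)) := by
  rw [← contDiffOn_univ]
  exact h.comp (contDiff_prodMk_right t).contDiffOn (fun y _ => mem_SS ht y)

/-- symmetry of the second derivative -/
lemma symm {T : ℝ} {Φ : ℝ × E3 → E} (h : ContDiffOn ℝ ∞ Φ (SS T)) {t : ℝ}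
    (ht : t ∈ Ico 0 T) (x : E3) (v w : ℝ × E3) :
    fderivWithin ℝ (fderivWithin ℝ Φ (SS T)) (SS T) (t, x) v w =
      fderivWithin ℝ (fderivWithin ℝ Φ (SS T)) (SS T) (t, x) w v := by
  have h1 := (h (t, x) (mem_SS ht x)).isSymmSndFDerivWithinAt (by
      rw [minSmoothness_of_isRCLikeNormedField]
      exact ENat.LEInfty.out) (ud T) (mem_cl ht x)
    (mem_SS ht x)
  exact h1 v w

end joint

section flow

variable {T : ℝ} {U : ℝ → E3 → E3}

lemma dt_eq (h : ContDiffOn ℝ ∞ (fun z : ℝ × E3 => U z.1 z.2) (Ico 0 T ×ˢ univ)) {t : ℝ}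
    (ht : t ∈ Ico 0 T) (x : E3) :
    dt T U t x = fderivWithin ℝ (fun z : ℝ × E3 => U z.1 z.2) (SS T) (t, x) (1, 0) :=
  (d_time (Φ := fun z : ℝ × E3 => U z.1 z.2) h ht x).derivWithin (uniqueDiffOn_Ico 0 T t ht)

lemma dt_has (h : ContDiffOn ℝ ∞ (fun z : ℝ × E3 => U z.1 z.2) (Ico 0 T ×ˢ univ)) {t : ℝ}
    (ht : t ∈ Ico 0 T) (x : E3) : HasDerivWithinAt (fun τ => U τ x) (dt T U t x) (Ico 0 T) t := by
  rw [dt_eq h ht]
  exact d_time (Φ := fun z : ℝ × E3 => U z.1 z.2) h ht x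

lemma dt_cd (h : ContDiffOn ℝ ∞ (fun z : ℝ × E3 => U z.1 z.2) (Ico 0 T ×ˢ univ)) :
    ContDiffOn ℝ ∞ (fun z : ℝ × E3 => dt T U z.1 z.2) (Ico 0 T ×ˢ univ) := by
  have h1 : ContDiffOn ℝ ∞ (fun z : ℝ × E3 =>
      fderivWithin ℝ (fun z : ℝ × E3 => U z.1 z.2) (SS T) z (1, 0)) (SS T) :=
    (cd_D (Φ := fun z : ℝ × E3 => U z.1 z.2) h).clm_apply contDiffOn_const
  refine h1.congr fun z hz => ?_
  exact dt_eq h hz.1 z.2

/-- the Jacobian as a linear function of the derivative -/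
noncomputable def Λ : (E3 →L[ℝ] E3) →L[ℝ] M3 :=
  LinearMap.toContinuousLinearMap
    { toFun := fun A => WithLp.toLp 2 fun p : Fin 3 × Fin 3 => A (EuclideanSpace.single p.2 1) p.1
      map_add' := fun A B => by ext p; rfl
      map_smul' := fun c A => by ext p; rfl }

lemma jac_Λ (φ : E3 → E3) (x : E3) : jac φ x = Λ (fderiv ℝ φ x) := rfl

lemma fd_eq (h : ContDiffOn ℝ ∞ (fun z : ℝ × E3 => U z.1 z.2) (Ico 0 T ×ˢ univ)) {t : ℝ}
    (ht : t ∈ Ico 0 T) (x : E3) : fderiv ℝ (U t) x =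
      (fderivWithin ℝ (fun z : ℝ × E3 => U z.1 z.2) (SS T) (t, x)).comp
        (ContinuousLinearMap.inr ℝ ℝ E3) :=
  (d_space (Φ := fun z : ℝ × E3 => U z.1 z.2) h ht x).fderiv

lemma fd_cd (h : ContDiffOn ℝ ∞ (fun z : ℝ × E3 => U z.1 z.2) (Ico 0 T ×ˢ univ)) :
    ContDiffOn ℝ ∞ (fun z : ℝ × E3 => fderiv ℝ (U z.1) z.2) (Ico 0 T ×ˢ univ) := by
  have h1 : ContDiffOn ℝ ∞ (fun z : ℝ × E3 =>
      (fderivWithin ℝ (fun z : ℝ × E3 => U z.1 z.2) (SS T) z).comp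
        (ContinuousLinearMap.inr ℝ ℝ E3)) (SS T) :=
    (cd_D (Φ := fun z : ℝ × E3 => U z.1 z.2) h).clm_comp contDiffOn_const
  refine h1.congr fun z hz => ?_
  exact fd_eq h hz.1 z.2

lemma jac_cd (h : ContDiffOn ℝ ∞ (fun z : ℝ × E3 => U z.1 z.2) (Ico 0 T ×ˢ univ)) :
    ContDiffOn ℝ ∞ (fun z : ℝ × E3 => jac (U z.1) z.2) (Ico 0 T ×ˢ univ) :=
  Λ.contDiff.comp_contDiffOn (fd_cd h)

/-- interchange of the derivatives in time and space -/
lemma fd_dt (h : ContDiffOn ℝ ∞ (fun z : ℝ × E3 => U z.1 z.2) (Ico 0 T ×ˢ univ)) {t : ℝ}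
    (ht : t ∈ Ico 0 T) (x : E3) :
    HasDerivWithinAt (fun τ => fderiv ℝ (U τ) x) (fderiv ℝ (dt T U t) x) (Ico 0 T) t := by
  set Φ : ℝ × E3 → E3 := fun z => U z.1 z.2 with hΦ
  have h1 := d_time (cd_D (Φ := Φ) h) ht x
  have h2 : HasDerivWithinAt (fun τ => (fderivWithin ℝ Φ (SS T) (τ, x)).comp
      (ContinuousLinearMap.inr ℝ ℝ E3)) ((fderivWithin ℝ (fderivWithin ℝ Φ (SS T)) (SS T) (t, x)
        (1, 0)).comp (ContinuousLinearMap.inr ℝ ℝ E3)) (Ico 0 T) t := by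
    have := h1.clm_comp (hasDerivWithinAt_const t (Ico 0 T) (ContinuousLinearMap.inr ℝ ℝ E3))
    simpa using this
  have h3 : HasDerivWithinAt (fun τ => fderiv ℝ (U τ) x)
      ((fderivWithin ℝ (fderivWithin ℝ Φ (SS T)) (SS T) (t, x)
        (1, 0)).comp (ContinuousLinearMap.inr ℝ ℝ E3)) (Ico 0 T) t :=
    h2.congr (fun τ hτ => fd_eq h hτ x) (fd_eq h ht x)
  have h4 : fderiv ℝ (dt T U t) x = (fderivWithin ℝ (fderivWithin ℝ Φ (SS T)) (SS T) (t, x)
        (1, 0)).comp (ContinuousLinearMap.inr ℝ ℝ E3) := by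
    have h5 : dt T U t = fun y => fderivWithin ℝ Φ (SS T) (t, y) (1, 0) :=
      funext fun y => dt_eq h ht y
    have h6 := d_space (cd_D (Φ := Φ) h) ht x
    have h7 := h6.clm_apply (hasFDerivAt_const ((1 : ℝ), (0 : E3)) x)
    rw [h5, h7.fderiv]
    ext1 v
    simp only [add_apply, ContinuousLinearMap.comp_apply,
      ContinuousLinearMap.flip_apply, ContinuousLinearMap.inr_apply]
    simp only [zero_apply, map_zero, zero_add]
    exact symm (Φ := Φ) h ht x _ _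
  rw [h4]
  exact h3

lemma jac_dt (h : ContDiffOn ℝ ∞ (fun z : ℝ × E3 => U z.1 z.2) (Ico 0 T ×ˢ univ)) {t : ℝ}
    (ht : t ∈ Ico 0 T) (x : E3) :
    HasDerivWithinAt (fun τ => jac (U τ) x) (jac (dt T U t) x) (Ico 0 T) t :=
  Λ.hasFDerivAt.comp_hasDerivWithinAt t (fd_dt h ht x)

end flow



section static

open Pool.Agent.N976.SC.T4 (Sm)

/-- the tensor square -/
noncomputable def tn (x : E3) : M3 := WithLp.toLp 2 fun p => x p.1 * x p.2

lemma inner_E (x y : E3) : ⟪x, y⟫_ℝ = ∑ i, x i * y i := by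
  simp [PiLp.inner_apply, mul_comm]

lemma inner_M (x y : M3) : ⟪x, y⟫_ℝ = ∑ i, ∑ j, x (i, j) * y (i, j) := by
  rw [PiLp.inner_apply, Fintype.sum_prod_type]
  simp [mul_comm]

lemma inner_mv (z : M3) (a : E3) : ⟪a, mv z a⟫_ℝ = ⟪z, tn a⟫_ℝ := by
  rw [inner_E, inner_M]
  simp only [mv, tn, Finset.mul_sum]
  refine Finset.sum_congr rfl fun i _ => Finset.sum_congr rfl fun j _ => ?_
  ring

lemma adv_eq (a b : E3 → E3) (y : E3) : adv a b y = mv (jac b y) (a y) := by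
  unfold adv
  conv_lhs => rw [Pool.Agent.N976.SC.T4.sum_bv (a y)]
  rw [map_sum]
  ext i
  simp only [map_smul, mv, jac, bv, WithLp.ofLp_sum, Finset.sum_apply, WithLp.ofLp_smul, Pi.smul_apply,
    smul_eq_mul]
  refine Finset.sum_congr rfl fun j _ => ?_
  ring

lemma div_eq (v : E3 → E3) (x : E3) : ∑ i, jac v x (i, i) = divg v x := rfl

lemma ip_adv {U φ : E3 → E3} (hU : Sm U) (hφ : Sm φ) (hd : ∀ y, divg U y = 0) :
    ip φ (adv U U) = -∫ y, ⟪jac φ y, tn (U y)⟫_ℝ := by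
  rw [Pool.Agent.N976.SC.T4.ip_comm, Pool.Agent.N976.SC.T4.ip_adv_anti (hU.sm.of_le (by simp)) (hU.sm.of_le (by simp))
    (hφ.sm.of_le (by simp)) hd (Or.inl hU.cs)]
  unfold ip
  congr 2
  ext y
  rw [real_inner_comm, adv_eq, inner_mv]

lemma integ_dd {v w : E3 → E3} (hv : Sm v) (hw : Sm w) (e : E3) :
    Integrable (fun y => ⟪fderiv ℝ v y e, fderiv ℝ w y e⟫_ℝ) :=
  Pool.Agent.N976.SC.T4.integ (hv.dd e).sm.continuous (hw.dd e)

lemma ip_lapl {U φ : E3 → E3} (hU : Sm U) (hφ : Sm φ) :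
    ip φ (lap U) = -∫ y, ⟪jac U y, jac φ y⟫_ℝ := by
  rw [Pool.Agent.N976.SC.T4.ip_comm]
  unfold lap
  rw [Pool.Agent.N976.SC.T4.ip_sum_left (fun i => (hU.dd (bv i)).dd (bv i)) hφ.sm.continuous]
  have h1 : ∀ i : Fin 3, ip (fun y => fderiv ℝ (fun z => fderiv ℝ U z (bv i)) y (bv i)) φ =
      -∫ y, ⟪fderiv ℝ U y (bv i), fderiv ℝ φ y (bv i)⟫_ℝ := by
    intro i
    rw [Pool.Agent.N976.SC.T4.ip_dd (hU.dd (bv i)) hφ.sm]
    rfl
  simp only [h1]
  rw [Finset.sum_neg_distrib, ← integral_finsetSum _ (fun i _ => integ_dd hU hφ (bv i))]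
  congr 2
  ext y
  rw [inner_M, Finset.sum_comm]
  refine Finset.sum_congr rfl fun i _ => ?_
  rw [inner_E]
  rfl

end static


section graph

open Pool.Agent.N976.SC.T4 (Sm)

variable {E : Type} [NormedAddCommGroup E] [InnerProductSpace ℝ E] [FiniteDimensional ℝ E]

lemma inner_cls {Ω : Set E3} {g : E3 → E} (h : MemLp g 2 (volume.restrict Ω))
    (v : Lp E 2 (volume.restrict Ω)) : ⟪v, cls Ω g⟫_ℝ = ∫ x in Ω, ⟪v x, g x⟫_ℝ := by
  rw [L2.inner_def]
  refine integral_congr_ae ?_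
  filter_upwards [cls_ae h] with x hx
  rw [hx]

lemma full {Ω : Set E3} {f : E3 → ℝ} (h : ∀ x, x ∉ Ω → f x = 0) :
    ∫ x in Ω, f x = ∫ x, f x := setIntegral_eq_integral_of_forall_compl_eq_zero h

/-- the data of a smooth divergence-free field with support in `K` -/
structure Fi (K : Set E3) (U : E3 → E3) : Prop where
  sm : ContDiff ℝ ∞ U
  out : ∀ x, x ∉ K → U x = 0
  div : ∀ x, divg U x = 0

variable {K Ω : Set E3} {U : E3 → E3}

lemma Fi.Sm (hK : IsCompact K) (h : Fi K U) : Sm U :=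
  ⟨h.sm, HasCompactSupport.of_support_subset_isCompact hK fun x hx => by
    by_contra hc
    exact hx (h.out x hc)⟩

lemma Fi.test (hK : IsCompact K) (hKΩ : K ⊆ Ω) (h : Fi K U) : IsTest Ω U where
  smooth := h.sm
  compact := (h.Sm hK).cs
  supp := by
    refine (closure_minimal (fun x hx => ?_) hK.isClosed).trans hKΩ
    by_contra hc
    exact hx (h.out x hc)
  divfree := h.div

lemma cont_jac {φ : E3 → E3} (h : ContDiff ℝ ∞ φ) : Continuous (jac φ) := by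
  have h1 : Continuous (fderiv ℝ φ) := h.continuous_fderiv (by simp)
  exact Λ.continuous.comp h1

lemma cont_tn : Continuous tn := by
  refine (PiLp.continuous_toLp 2 _).comp ?_
  refine continuous_pi fun p => ?_
  fun_prop

lemma Fi.ck (h : Fi K U) : CK K U := ⟨h.sm.continuous, h.out⟩

lemma Fi.ck_jac (hK : IsCompact K) (h : Fi K U) : CK K (jac U) :=
  ⟨cont_jac h.sm, fun x hx => by
    rw [jac_Λ, Pool.Agent.N976.SC.T4.fderiv_zero_of hK.isClosed.isOpen_compl (fun y hy => h.out y hy) hx,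
      map_zero]⟩

lemma Fi.ck_tn (h : Fi K U) : CK K (fun x => tn (U x)) :=
  ⟨cont_tn.comp h.sm.continuous, fun x hx => by
    rw [h.out x hx]
    ext p
    simp [tn]⟩

lemma Fi.ck_adv (hK : IsCompact K) (h : Fi K U) : CK K (adv U U) :=
  ⟨((h.Sm hK).adv h.sm).sm.continuous, fun x hx => by
    rw [adv, h.out x hx, map_zero]⟩

lemma Fi.ck_lap (hK : IsCompact K) (h : Fi K U) : CK K (lap U) :=
  ⟨(h.Sm hK).lap.sm.continuous, fun x hx =>
    Pool.Agent.N976.SC.T4.lap_zero_of hK.isClosed.isOpen_compl (fun y hy => h.out y hy) hx⟩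

lemma graph_ind {A : L2V Ω} {B : L2M Ω} (h : ∀ (v : L2V Ω) (z : L2M Ω) (φ : E3 → E3), IsTest Ω φ →
    v =ᵐ[volume.restrict Ω] φ → z =ᵐ[volume.restrict Ω] jac φ → ⟪v, A⟫_ℝ + ⟪z, B⟫_ℝ = 0)
    {v : L2V Ω} {z : L2M Ω} (hp : (v, z) ∈ H1graph Ω) : ⟪v, A⟫_ℝ + ⟪z, B⟫_ℝ = 0 := by
  have hcl : IsClosed {p : L2V Ω × L2M Ω | ⟪p.1, A⟫_ℝ + ⟪p.2, B⟫_ℝ = 0} := by
    refine isClosed_eq ?_ continuous_const
    exact (continuous_fst.inner continuous_const).add (continuous_snd.inner continuous_const)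
  have hsub : H1graph Ω ⊆ {p : L2V Ω × L2M Ω | ⟪p.1, A⟫_ℝ + ⟪p.2, B⟫_ℝ = 0} := by
    refine closure_minimal ?_ hcl
    rintro ⟨v, z⟩ ⟨φ, h1, h2, h3⟩
    exact h v z φ h1 h2 h3
  exact hsub hp

lemma inner_ip {g φ : E3 → E} (hK : IsCompact K) (hKΩ : K ⊆ Ω) (hg : CK K g)
    {v : Lp E 2 (volume.restrict Ω)} (hv : v =ᵐ[volume.restrict Ω] φ) :
    ⟪v, cls Ω g⟫_ℝ = ∫ x, ⟪φ x, g x⟫_ℝ := by
  rw [inner_cls (hg.memLp hK Ω), ← full (Ω := Ω)]
  · refine integral_congr_ae ?_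
    filter_upwards [hv] with x hx
    rw [hx]
  · intro x hx
    rw [hg.out x (fun hc => hx (hKΩ hc)), inner_zero_right]

lemma id_adv (hK : IsCompact K) (hKΩ : K ⊆ Ω) (hU : Fi K U) {v : L2V Ω} {z : L2M Ω}
    (hp : (v, z) ∈ H1graph Ω) :
    ⟪v, cls Ω (adv U U)⟫_ℝ + ⟪z, cls Ω (fun x => tn (U x))⟫_ℝ = 0 := by
  refine graph_ind ?_ hp
  intro v z φ hφ hv hz
  rw [inner_ip hK hKΩ (hU.ck_adv hK) hv, inner_ip hK hKΩ hU.ck_tn hz]
  have := ip_adv (hU.Sm hK) (φ := φ) ⟨hφ.smooth, hφ.compact⟩ hU.div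
  unfold ip at this
  rw [this]
  ring

lemma id_lap (hK : IsCompact K) (hKΩ : K ⊆ Ω) (hU : Fi K U) {v : L2V Ω} {z : L2M Ω}
    (hp : (v, z) ∈ H1graph Ω) :
    ⟪v, cls Ω (lap U)⟫_ℝ + ⟪z, cls Ω (jac U)⟫_ℝ = 0 := by
  refine graph_ind ?_ hp
  intro v z φ hφ hv hz
  rw [inner_ip hK hKΩ (hU.ck_lap hK) hv, inner_ip hK hKΩ (hU.ck_jac hK) hz]
  have := ip_lapl (hU.Sm hK) (φ := φ) ⟨hφ.smooth, hφ.compact⟩
  unfold ip at this
  rw [this]
  have h1 : ∀ x, ⟪jac φ x, jac U x⟫_ℝ = ⟪jac U x, jac φ x⟫_ℝ := fun _ => real_inner_comm _ _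
  simp only [h1]
  ring

end graph

end D2

open D2 in
theorem t_D2 : S_D2 := by
  intro ι Ω ν T T' r U hΩ hν hr hrc hrs hF hT' hTT
  obtain ⟨K, hK, hKΩ, hout⟩ := hF.cpt
  have hsm := hF.sm
  set u : ℝ → L2V Ω := fun t => cls Ω (U t) with hu
  set u' : ℝ → L2V Ω := fun t => cls Ω (dt T U t) with hu'
  set G : ℝ → L2M Ω := fun t => cls Ω (jac (U t)) with hG
  set G' : ℝ → L2M Ω := fun t => cls Ω (jac (dt T U t)) with hG'
  have hsub : Icc 0 T' ⊆ Ico 0 T := fun x hx => ⟨hx.1, hx.2.trans_lt hTT⟩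
  have hfi : ∀ t ∈ Ico 0 T, Fi K (U t) := fun t ht =>
    ⟨cd_slice (Φ := fun z : ℝ × E3 => U z.1 z.2) hsm ht, hout t ht, hF.div t ht⟩
  have hdout : ∀ t ∈ Ico 0 T, ∀ x, x ∉ K → dt T U t x = 0 := by
    intro t ht x hx
    have h1 : HasDerivWithinAt (fun τ => U τ x) 0 (Ico 0 T) t :=
      (hasDerivWithinAt_const t (Ico 0 T) (0 : E3)).congr (fun τ hτ => hout τ hτ x hx) (hout t ht x hx)
    exact h1.derivWithin (uniqueDiffOn_Ico 0 T t ht)
  have hfd : ∀ t ∈ Ico 0 T, Fi K (dt T U t) := by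
    intro t ht
    refine ⟨cd_slice (Φ := fun z : ℝ × E3 => dt T U z.1 z.2) (dt_cd hsm) ht, hdout t ht, fun x => ?_⟩
    have h1 : ∀ i : Fin 3, HasDerivWithinAt (fun τ => (fderiv ℝ (U τ) x (bv i)) i)
        ((fderiv ℝ (dt T U t) x (bv i)) i) (Ico 0 T) t := by
      intro i
      have h2 := (fd_dt hsm ht x).clm_apply (hasDerivWithinAt_const t (Ico 0 T) (bv i))
      simp only [map_zero, add_zero] at h2
      exact (EuclideanSpace.proj (𝕜 := ℝ) (ι := Fin 3) i).hasFDerivAt.comp_hasDerivWithinAt t h2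
    have h3 : HasDerivWithinAt (fun τ => divg (U τ) x) (divg (dt T U t) x) (Ico 0 T) t := by
      unfold divg
      exact HasDerivWithinAt.fun_sum fun i _ => h1 i
    have h4 : HasDerivWithinAt (fun τ => divg (U τ) x) 0 (Ico 0 T) t :=
      (hasDerivWithinAt_const t (Ico 0 T) (0 : ℝ)).congr (fun τ hτ => hF.div τ hτ x) (hF.div t ht x)
    exact ((uniqueDiffOn_Ico 0 T t ht).eq_deriv _ h3 h4)
  have hmem : ∀ t ∈ Ico 0 T, (u t, G t) ∈ H1graph Ω := fun t ht =>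
    subset_closure ⟨U t, (hfi t ht).test hK hKΩ, (hfi t ht).ck.ae hK Ω, ((hfi t ht).ck_jac hK).ae hK Ω⟩
  have hmem' : ∀ t ∈ Ico 0 T, (u' t, G' t) ∈ H1graph Ω := fun t ht =>
    subset_closure ⟨dt T U t, (hfd t ht).test hK hKΩ, (hfd t ht).ck.ae hK Ω,
      ((hfd t ht).ck_jac hK).ae hK Ω⟩
  have hIo : ∀ {E : Type} [NormedAddCommGroup E] [NormedSpace ℝ E] {f : ℝ → E} {f' : E} {t : ℝ},
      t ∈ Ioo 0 T → HasDerivWithinAt f f' (Ico 0 T) t → HasDerivAt f f' t := by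
    intro E _ _ f f' t ht h
    exact h.hasDerivAt (Ico_mem_nhds ht.1 ht.2)
  have cu' : ContinuousOn u' (Ico 0 T) :=
    cls_cont hK Ω (F := dt T U) (dt_cd hsm).continuousOn fun t ht => (hfd t ht).ck
  have cG' : ContinuousOn G' (Ico 0 T) :=
    cls_cont hK Ω (F := fun t => jac (dt T U t)) (jac_cd (dt_cd hsm)).continuousOn
      fun t ht => (hfd t ht).ck_jac hK
  have pu : ∀ a b, 0 ≤ a → a ≤ b → b ≤ T' → u b - u a = ∫ s in a..b, u' s := by
    intro a b ha hab hb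
    exact cls_ftc hK Ω (F := U) (F' := dt T U) hsm.continuousOn (dt_cd hsm).continuousOn
      (fun t ht => (hfi t ht).ck) (fun t ht => (hfd t ht).ck)
      (fun t ht x => hIo ht (dt_has hsm (Ioo_subset_Ico_self ht) x)) ha hab (hb.trans_lt hTT)
  have pG : ∀ a b, 0 ≤ a → a ≤ b → b ≤ T' → G b - G a = ∫ s in a..b, G' s := by
    intro a b ha hab hb
    exact cls_ftc hK Ω (F := fun t => jac (U t)) (F' := fun t => jac (dt T U t))
      (jac_cd hsm).continuousOn (jac_cd (dt_cd hsm)).continuousOn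
      (fun t ht => (hfi t ht).ck_jac hK) (fun t ht => (hfd t ht).ck_jac hK)
      (fun t ht x => hIo ht (jac_dt hsm (Ioo_subset_Ico_self ht) x)) ha hab (hb.trans_lt hTT)
  have mem : ∀ {E : Type} [NormedAddCommGroup E] {f : ℝ → E}, ContinuousOn f (Ico 0 T) →
      MemLp f 2 (volume.restrict (Ioc 0 T')) := by
    intro E _ f hf
    have h1 := hf.mono hsub
    obtain ⟨M, hM⟩ := isCompact_Icc.exists_bound_of_continuousOn h1
    refine MemLp.of_bound (C := M) ?_ ?_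
    · exact (h1.aestronglyMeasurable_of_isCompact isCompact_Icc measurableSet_Icc).mono_set
        Ioc_subset_Icc_self
    · refine (ae_restrict_iff' measurableSet_Ioc).2 (Eventually.of_forall fun x hx => ?_)
      exact hM x (Ioc_subset_Icc_self hx)
  refine ⟨u, u', G, G', ⟨fun t ht => hmem t (hsub ht), ?_, ⟨mem cu', pu⟩, ⟨mem cG', pG⟩, ?_, ?_, ?_⟩,
    fun t ht => (hfi t (hsub ht)).ck.ae hK Ω⟩
  · refine (ae_restrict_iff' measurableSet_Ioc).2 (Eventually.of_forall fun x hx => ?_)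
    exact hmem' x (hsub (Ioc_subset_Icc_self hx))
  · obtain ⟨M, hM⟩ := isCompact_Icc.exists_bound_of_continuousOn (cu'.mono hsub)
    refine ⟨M, (ae_restrict_iff' measurableSet_Ioc).2 (Eventually.of_forall fun x hx => ?_)⟩
    exact hM x (Ioc_subset_Icc_self hx)
  · intro t ht i
    have h1 := hF.con t (hsub ht) i
    unfold ip at h1
    rw [← h1, ← full (Ω := Ω)]
    · refine integral_congr_ae ?_
      filter_upwards [(hfi t (hsub ht)).ck.ae hK Ω] with x hx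
      rw [hx]
    · intro x hx
      rw [hout t (hsub ht) x (fun hc => hx (hKΩ hc)), inner_zero_left]
  · intro v z hvz hcon t ht
    have h0 : (0 : ℝ) ∈ Icc 0 T' := ⟨le_rfl, hT'.le⟩
    have hint : IntervalIntegrable u' volume 0 t :=
      ((cu'.mono hsub).mono (by
        rw [uIcc_of_le ht.1]
        exact Icc_subset_Icc le_rfl ht.2)).intervalIntegrable
    have h1 : ⟪u t, v⟫_ℝ - ⟪u 0, v⟫_ℝ = ∫ s in (0 : ℝ)..t, ⟪v, u' s⟫_ℝ := by
      rw [← inner_sub_left, pu 0 t le_rfl ht.1 ht.2, real_inner_comm]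
      exact ((innerSL ℝ v).intervalIntegral_comp_comm hint).symm
    rw [h1]
    refine intervalIntegral.integral_congr fun s hs => ?_
    rw [uIcc_of_le ht.1] at hs
    have hs' : s ∈ Ico 0 T := hsub ⟨hs.1, hs.2.trans ht.2⟩
    have hf := hfi s hs'
    have hd := hfd s hs'
    have e1 : cls Ω (fun x => dt T U s x + adv (U s) (U s) x - ν • lap (U s) x) =
        cls Ω (dt T U s) + cls Ω (adv (U s) (U s)) - ν • cls Ω (lap (U s)) := by
      have hm : MemLp (fun x => dt T U s x + adv (U s) (U s) x - ν • lap (U s) x) 2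
          (volume.restrict Ω) :=
        ((hd.ck.memLp hK Ω).add ((hf.ck_adv hK).memLp hK Ω)).sub
          (((hf.ck_lap hK).memLp hK Ω).const_smul ν)
      refine Lp.ext ?_
      filter_upwards [cls_ae hm, hd.ck.ae hK Ω, (hf.ck_adv hK).ae hK Ω, (hf.ck_lap hK).ae hK Ω,
        Lp.coeFn_sub (cls Ω (dt T U s) + cls Ω (adv (U s) (U s))) (ν • cls Ω (lap (U s))),
        Lp.coeFn_add (cls Ω (dt T U s)) (cls Ω (adv (U s) (U s))),
        Lp.coeFn_smul ν (cls Ω (lap (U s)))] with x a1 a2 a3 a4 a5 a6 a7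
      rw [a1, a5, Pi.sub_apply, a6, Pi.add_apply, a7, Pi.smul_apply, a2, a3, a4]
    have e2 : ⟪v, cls Ω (fun x => dt T U s x + adv (U s) (U s) x - ν • lap (U s) x)⟫_ℝ = 0 := by
      rw [inner_cls, hF.res s hs' v hcon]
      exact ((hd.ck.memLp hK Ω).add ((hf.ck_adv hK).memLp hK Ω)).sub
          (((hf.ck_lap hK).memLp hK Ω).const_smul ν)
    rw [e1, inner_sub_right, inner_add_right, inner_smul_right] at e2
    have e3 := id_adv hK hKΩ hf hvz
    have e4 := id_lap hK hKΩ hf hvz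
    have e5 : ∫ x in Ω, ⟪u s x, mv (z x) (u s x)⟫_ℝ = ⟪z, cls Ω (fun x => tn (U s x))⟫_ℝ := by
      rw [inner_cls (hf.ck_tn.memLp hK Ω)]
      refine integral_congr_ae ?_
      filter_upwards [hf.ck.ae hK Ω] with x hx
      rw [hx, inner_mv]
    rw [e5, real_inner_comm (cls Ω (jac (U s))) z] at *
    have e6 : ⟪v, u' s⟫_ℝ = ⟪v, cls Ω (dt T U s)⟫_ℝ := rfl
    rw [e6]
    nlinarith

end Pool.Agent.N976.DI
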