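import Pool.Agent.N976.DI.Def

/-!
# (D3), (D4): no strong solution reaches the blow-up time; dilation and translation of the flow
-/

open Set Filter Topology MeasureTheory
open scoped ContDiff InnerProductSpace

set_option autoImplicit false

namespace Pool.Agent.N976.DI

open Pool.Agent.N976.SC
open H772R2.NS (jac IsTest L2V L2M H1graph M3)

namespace D34

lemma norm_jac_sq (φ : E3 → E3) (x : E3) :
    ‖jac φ x‖ ^ 2 = ∑ i : Fin 3, ‖fderiv ℝ φ x (bv i)‖ ^ 2 := by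
  unfold jac bv
  rw [EuclideanSpace.norm_sq_eq, Fintype.sum_prod_type_right]
  simp [EuclideanSpace.norm_sq_eq]

lemma fderiv_out {φ : E3 → E3} {K : Set E3} (hK : IsCompact K) (h0 : ∀ x, x ∉ K → φ x = 0)
    (x : E3) (hx : x ∉ K) : fderiv ℝ φ x = 0 := by
  have h1 : φ =ᶠ[𝓝 x] fun _ => 0 := by
    filter_upwards [hK.isClosed.isOpen_compl.mem_nhds hx] with y hy
    exact h0 y hy
  rw [h1.fderiv_eq]
  simp

lemma dir_eq {Ω : Set E3} {φ : E3 → E3} {K : Set E3} (hK : IsCompact K) (hKΩ : K ⊆ Ω)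
    (h0 : ∀ x, x ∉ K → φ x = 0) (G : L2M Ω) (hG : G =ᵐ[volume.restrict Ω] jac φ) :
    dir φ = ‖G‖ ^ 2 := by
  have h2 : ‖G‖ ^ 2 = ∫ x in Ω, ‖jac φ x‖ ^ 2 := by
    rw [← real_inner_self_eq_norm_sq, L2.inner_def]
    apply integral_congr_ae
    filter_upwards [hG] with x hx
    rw [hx, real_inner_self_eq_norm_sq]
  rw [h2, setIntegral_eq_integral_of_forall_compl_eq_zero]
  · unfold dir
    simp only [norm_jac_sq]
  · intro x hx
    have hxK : x ∉ K := fun h => hx (hKΩ h)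
    rw [norm_jac_sq, fderiv_out hK h0 x hxK]
    simp

end D34

open D34

theorem t_D3 : S_D3 := by
  intro ι Ω ν T T' r U u u' G G' hΩ hF hC hTT hG
  obtain ⟨K, hK, hKΩ, hK0⟩ := hF.cpt
  have hT' : 0 < T' := hF.T0.trans_le hTT
  have hint : IntervalIntegrable (fun s => ‖G' s‖) volume 0 T' := by
    rw [intervalIntegrable_iff_integrableOn_Ioc_of_le hT'.le]
    exact (hC.hG.memLp.integrable one_le_two).norm
  obtain ⟨B, hB⟩ : ∃ B, B = ‖G 0‖ + ∫ s in (0:ℝ)..T', ‖G' s‖ := ⟨_, rfl⟩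
  have hb : ∀ t ∈ Ico 0 T, ‖G t‖ ≤ B := by
    intro t ht
    have h1 := hC.hG.prim 0 t le_rfl ht.1 (ht.2.le.trans hTT)
    have h2 : G t = G 0 + ∫ s in (0:ℝ)..t, G' s := by rw [← h1]; abel
    rw [h2, hB]
    refine (norm_add_le _ _).trans (add_le_add le_rfl ?_)
    calc ‖∫ s in (0:ℝ)..t, G' s‖ ≤ ∫ s in (0:ℝ)..t, ‖G' s‖ :=
          intervalIntegral.norm_integral_le_integral_norm ht.1
      _ ≤ ∫ s in (0:ℝ)..T', ‖G' s‖ :=
          intervalIntegral.integral_mono_interval le_rfl ht.1 (ht.2.le.trans hTT)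
            (Eventually.of_forall fun s => norm_nonneg _) hint
  obtain ⟨t, ht, hM⟩ := hF.enst (B ^ 2)
  rw [dir_eq hK hKΩ (hK0 t ht) (G t) (hG t ⟨ht.1, ht.2.le.trans hTT⟩ ht.2)] at hM
  have h3 := pow_le_pow_left₀ (norm_nonneg _) (hb t ht) 2
  linarith

namespace D34

lemma hfd {F : Type} [NormedAddCommGroup F] [NormedSpace ℝ F] {v : E3 → F}
    (hv : Differentiable ℝ v) (a : ℝ) (x₀ x : E3) :
    HasFDerivAt (fun x => v (a • (x - x₀))) (a • fderiv ℝ v (a • (x - x₀))) x := by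
  have h1 : HasFDerivAt (fun x : E3 => a • (x - x₀)) (a • ContinuousLinearMap.id ℝ E3) x :=
    ((hasFDerivAt_id x).sub_const x₀).const_smul a
  have h2 := (hv (a • (x - x₀))).hasFDerivAt.comp x h1
  have h3 : a • fderiv ℝ v (a • (x - x₀)) =
      (fderiv ℝ v (a • (x - x₀))).comp (a • ContinuousLinearMap.id ℝ E3) := by
    ext h
    simp
  rw [h3]
  exact h2

/-- dilation and translation of a velocity field -/
noncomputable def sc (x₀ : E3) (ℓ : ℝ) (v : E3 → E3) (x : E3) : E3 := ℓ⁻¹ • v (ℓ⁻¹ • (x - x₀))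

lemma fderiv_sc {v : E3 → E3} (hv : Differentiable ℝ v) (x₀ : E3) (ℓ : ℝ) (x : E3) :
    fderiv ℝ (sc x₀ ℓ v) x = (ℓ⁻¹ * ℓ⁻¹) • fderiv ℝ v (ℓ⁻¹ • (x - x₀)) := by
  have h := ((hfd hv ℓ⁻¹ x₀ x).const_smul ℓ⁻¹).fderiv
  rw [smul_smul] at h
  exact h

lemma divg_sc {v : E3 → E3} (hv : Differentiable ℝ v) (x₀ : E3) (ℓ : ℝ) (x : E3) :
    divg (sc x₀ ℓ v) x = (ℓ⁻¹ * ℓ⁻¹) * divg v (ℓ⁻¹ • (x - x₀)) := by
  unfold divg
  rw [fderiv_sc hv, Finset.mul_sum]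
  rfl

lemma adv_sc {v : E3 → E3} (hv : Differentiable ℝ v) (x₀ : E3) (ℓ : ℝ) (x : E3) :
    adv (sc x₀ ℓ v) (sc x₀ ℓ v) x = (ℓ⁻¹ * ℓ⁻¹ * ℓ⁻¹) • adv v v (ℓ⁻¹ • (x - x₀)) := by
  unfold adv
  rw [fderiv_sc hv]
  unfold sc
  rw [smul_apply, map_smul, smul_smul]

lemma lap_sc {v : E3 → E3} (hv : ContDiff ℝ ∞ v) (x₀ : E3) (ℓ : ℝ) (x : E3) :
    lap (sc x₀ ℓ v) x = (ℓ⁻¹ * ℓ⁻¹ * ℓ⁻¹) • lap v (ℓ⁻¹ • (x - x₀)) := by
  unfold lap
  rw [Finset.smul_sum]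
  refine Finset.sum_congr rfl fun i _ => ?_
  have h1 : (fun z => fderiv ℝ (sc x₀ ℓ v) z (bv i)) =
      fun z => (ℓ⁻¹ * ℓ⁻¹) • (fun y => fderiv ℝ v y (bv i)) (ℓ⁻¹ • (z - x₀)) := by
    funext z
    rw [fderiv_sc (hv.differentiable (by simp))]
    rfl
  rw [h1]
  have h2 : ContDiff ℝ ∞ (fun y => fderiv ℝ v y (bv i)) :=
    (T4.cd_fderiv hv).clm_apply contDiff_const
  have h3 := ((hfd (h2.differentiable (by simp)) ℓ⁻¹ x₀ x).const_smul (ℓ⁻¹ * ℓ⁻¹)).fderiv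
  have h4 : fderiv ℝ (fun z => (ℓ⁻¹ * ℓ⁻¹) • (fun y => fderiv ℝ v y (bv i)) (ℓ⁻¹ • (z - x₀))) x =
      (ℓ⁻¹ * ℓ⁻¹) • ℓ⁻¹ • fderiv ℝ (fun y => fderiv ℝ v y (bv i)) (ℓ⁻¹ • (x - x₀)) := h3
  rw [h4, smul_smul]
  rfl

lemma int_sc {ℓ : ℝ} (hℓ : 0 < ℓ) (x₀ : E3) (f : E3 → ℝ) :
    ∫ x, f (ℓ⁻¹ • (x - x₀)) = ℓ ^ 3 * ∫ y, f y := by
  rw [integral_sub_right_eq_self (fun x => f (ℓ⁻¹ • x)) x₀, Measure.integral_comp_inv_smul,
    finrank_euclideanSpace_fin, abs_of_pos (by positivity), smul_eq_mul]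

lemma ip_sc {ℓ : ℝ} (hℓ : 0 < ℓ) (x₀ : E3) (v w : E3 → E3) :
    ip (sc x₀ ℓ v) (fun x => w (ℓ⁻¹ • (x - x₀))) = ℓ ^ 2 * ip v w := by
  unfold ip sc
  have h1 : ∀ x, inner ℝ (ℓ⁻¹ • v (ℓ⁻¹ • (x - x₀))) (w (ℓ⁻¹ • (x - x₀))) =
      (fun y => ℓ⁻¹ * inner ℝ (v y) (w y)) (ℓ⁻¹ • (x - x₀)) := by
    intro x
    rw [real_inner_smul_left]
  simp only [h1]
  rw [int_sc hℓ x₀ (fun y => ℓ⁻¹ * inner ℝ (v y) (w y)), integral_const_mul]
  field_simp

lemma dir_sc {ℓ : ℝ} (hℓ : 0 < ℓ) (x₀ : E3) {v : E3 → E3} (hv : Differentiable ℝ v) :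
    dir (sc x₀ ℓ v) = ℓ⁻¹ * dir v := by
  unfold dir
  have h1 : ∀ x, ∑ i : Fin 3, ‖fderiv ℝ (sc x₀ ℓ v) x (bv i)‖ ^ 2 =
      (fun y => (ℓ⁻¹) ^ 4 * ∑ i : Fin 3, ‖fderiv ℝ v y (bv i)‖ ^ 2) (ℓ⁻¹ • (x - x₀)) := by
    intro x
    simp only
    rw [Finset.mul_sum]
    refine Finset.sum_congr rfl fun i _ => ?_
    rw [fderiv_sc hv, smul_apply, norm_smul, Real.norm_of_nonneg (by positivity)]
    ring
  simp only [h1]
  rw [int_sc hℓ x₀ (fun y => (ℓ⁻¹) ^ 4 * ∑ i : Fin 3, ‖fderiv ℝ v y (bv i)‖ ^ 2),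
    integral_const_mul]
  field_simp

lemma summable_opt {α : Type} {f : Option α → ℝ} (h : Summable fun a => f (some a)) :
    Summable f := by
  classical
  have h1 : Summable (fun p : Option α => Option.elim p 0 (fun a => f (some a))) := by
    rw [← (Option.some_injective α).summable_iff]
    · exact h
    · intro x hx
      cases x with
      | none => rfl
      | some a => exact absurd ⟨a, rfl⟩ hx
  have h2 := h1.update none (f none)
  have h3 : Function.update (fun p : Option α => Option.elim p 0 (fun a => f (some a))) none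
      (f none) = f := by
    funext x
    cases x with
    | none => simp
    | some a => simp
  rw [h3] at h2
  exact h2

lemma summable_l {s : ℝ} (hs : 1 < s) {M : ℝ} {l : Option (Fin 4 × ℕ) → ℝ}
    (h : ∀ i n, s ^ n * |l (some (i, n))| ≤ M) : Summable fun p => |l p| := by
  have hs0 : 0 < s := by linarith
  apply summable_opt
  have h1 : Summable fun p : Fin 4 × ℕ => M * (s⁻¹) ^ p.2 := by
    have hM : 0 ≤ M := le_trans (by positivity) (h 0 0)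
    rw [summable_prod_of_nonneg (fun p => by positivity)]
    refine ⟨fun i => ?_, (hasSum_fintype _).summable⟩
    exact (summable_geometric_of_lt_one (by positivity) (inv_lt_one_of_one_lt₀ hs)).mul_left M
  refine Summable.of_nonneg_of_le (fun p => abs_nonneg _) (fun p => ?_) h1
  rcases p with ⟨i, n⟩
  have h2 := h i n
  rw [inv_pow, ← div_eq_mul_inv, le_div_iff₀ (by positivity)]
  linarith [mul_comm (s ^ n) |l (some (i, n))|]

/-- all constraint fields are bounded by one constant -/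
lemma fld_bdd {s : ℝ} {r0 : E3 → E3} {r : Fin 4 → E3 → E3}
    (hsm : ∀ i, ContDiff ℝ ∞ (fld (s ^ 2) r0 r i))
    (hout : ∀ i y, 1 ≤ ‖y‖ → fld (s ^ 2) r0 r i y = 0) :
    ∃ C : ℝ, 0 ≤ C ∧ ∀ i y, ‖fld (s ^ 2) r0 r i y‖ ≤ C := by
  have hb : ∀ i, ∃ C : ℝ, ∀ y, ‖fld (s ^ 2) r0 r i y‖ ≤ C := by
    intro i
    refine (hsm i).continuous.bounded_above_of_compact_support ?_
    refine HasCompactSupport.intro (isCompact_closedBall (0 : E3) 1) fun y hy => hout i y ?_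
    rw [mem_closedBall_zero_iff, not_le] at hy
    exact hy.le
  choose C hC using hb
  have hC0 : ∀ i, 0 ≤ C i := fun i => (norm_nonneg _).trans (hC i 0)
  refine ⟨C none + ∑ k : Fin 4, C (some (k, 0)), by
    have : 0 ≤ ∑ k : Fin 4, C (some (k, 0)) := Finset.sum_nonneg fun k _ => hC0 _
    linarith [hC0 none], fun i y => ?_⟩
  have h1 : 0 ≤ ∑ k : Fin 4, C (some (k, 0)) := Finset.sum_nonneg fun k _ => hC0 _
  rcases i with _ | ⟨k, n⟩
  · linarith [hC none y]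
  · have h2 : fld (s ^ 2) r0 r (some (k, n)) y = fld (s ^ 2) r0 r (some (k, 0)) ((s ^ 2) ^ n • y) := by
      simp [fld]
    rw [h2]
    have h3 : C (some (k, 0)) ≤ ∑ k : Fin 4, C (some (k, 0)) :=
      Finset.single_le_sum (f := fun k : Fin 4 => C (some (k, 0))) (fun k _ => hC0 _)
        (Finset.mem_univ k)
    linarith [hC (some (k, 0)) ((s ^ 2) ^ n • y), hC0 none]

end D34

open D34

theorem t_D4 : S_D4 := by
  intro s β lam ν Q r0 r T u X l hs hν hrsm hrout hG Ω x₀ ℓ hℓ hΩ hball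
  have hT : 0 < T := hG.T0
  have hℓ2 : 0 < ℓ ^ 2 := by positivity
  have hmap : ∀ t ∈ Ico 0 (ℓ ^ 2 * T), t / ℓ ^ 2 ∈ Ico 0 T := by
    intro t ht
    refine ⟨div_nonneg ht.1 hℓ2.le, ?_⟩
    rw [div_lt_iff₀ hℓ2]
    linarith [ht.2, mul_comm (ℓ ^ 2) T]
  have hsmt : ∀ t ∈ Ico 0 T, ContDiff ℝ ∞ (u t) := hG.sol.smooth
  have hdf : ∀ t ∈ Ico 0 T, Differentiable ℝ (u t) := fun t ht =>
    (hsmt t ht).differentiable (by simp)
  obtain ⟨U, hU⟩ : ∃ U : ℝ → E3 → E3, U = fun t x => ℓ⁻¹ • u (t / ℓ ^ 2) (ℓ⁻¹ • (x - x₀)) := ⟨_, rfl⟩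
  rw [← hU]
  have hUsc : ∀ t, U t = sc x₀ ℓ (u (t / ℓ ^ 2)) := fun t => by rw [hU]; rfl
  have hdt : ∀ t ∈ Ico 0 (ℓ ^ 2 * T), ∀ x, dt (ℓ ^ 2 * T) U t x =
      (ℓ⁻¹ * ℓ⁻¹ * ℓ⁻¹) • dt T u (t / ℓ ^ 2) (ℓ⁻¹ • (x - x₀)) := by
    intro t ht x
    obtain ⟨y, hy⟩ : ∃ y, y = ℓ⁻¹ • (x - x₀) := ⟨_, rfl⟩
    have h1 : ContDiffOn ℝ ∞ (fun τ : ℝ => u τ y) (Ico 0 T) := by
      have h2 : ContDiffOn ℝ ∞ (fun τ : ℝ => ((τ, y) : ℝ × E3)) (Ico 0 T) :=
        (contDiff_id.prodMk contDiff_const).contDiffOn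
      exact hG.sm.comp h2 (fun τ hτ => ⟨hτ, mem_univ _⟩)
    have h2 : HasDerivWithinAt (fun τ : ℝ => u τ y) (dt T u (t / ℓ ^ 2) y) (Ico 0 T) (t / ℓ ^ 2) :=
      ((h1.differentiableOn (by simp)) _ (hmap t ht)).hasDerivWithinAt
    have h3 : HasDerivWithinAt (fun t : ℝ => t / ℓ ^ 2) (1 / ℓ ^ 2) (Ico 0 (ℓ ^ 2 * T)) t :=
      ((hasDerivAt_id t).div_const (ℓ ^ 2)).hasDerivWithinAt
    have h4 := (h2.scomp t h3 hmap).const_smul ℓ⁻¹
    have h5 := h4.derivWithin (uniqueDiffOn_Ico 0 (ℓ ^ 2 * T) t ht)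
    unfold dt at h5 ⊢
    rw [hU, ← hy]
    simp only [← hy]
    rw [smul_smul] at h5
    have e : ℓ⁻¹ * (1 / ℓ ^ 2) = ℓ⁻¹ * ℓ⁻¹ * ℓ⁻¹ := by
      field_simp
    rw [e] at h5
    exact h5
  refine ⟨by positivity, ?_, ?_, ?_, ?_, ?_, ?_⟩
  · have h1 : ContDiffOn ℝ ∞ (fun z : ℝ × E3 => ((z.1 / ℓ ^ 2, ℓ⁻¹ • (z.2 - x₀)) : ℝ × E3))
        (Ico 0 (ℓ ^ 2 * T) ×ˢ univ) :=
      ((contDiff_fst.div_const _).prodMk ((contDiff_snd.sub contDiff_const).const_smul _)).contDiffOn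
    have h2 := (hG.sm.comp h1 (fun z hz => ⟨hmap z.1 hz.1, mem_univ _⟩)).const_smul ℓ⁻¹
    rw [hU]
    exact h2
  · refine ⟨Metric.closedBall x₀ (ℓ / 2), isCompact_closedBall _ _,
      (Metric.closedBall_subset_closedBall (by linarith)).trans hball, fun t ht x hx => ?_⟩
    rw [Metric.mem_closedBall, not_le, dist_eq_norm] at hx
    rw [hU]
    simp only
    rw [hG.out _ (hmap t ht), smul_zero]
    rw [norm_smul, norm_inv, Real.norm_of_nonneg hℓ.le, inv_mul_eq_div, le_div_iff₀ hℓ]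
    linarith
  · intro t ht x
    rw [hUsc, divg_sc (hdf _ (hmap t ht)), hG.sol.div _ (hmap t ht), mul_zero]
  · intro t ht i
    rw [hUsc]
    have h1 := ip_sc hℓ x₀ (u (t / ℓ ^ 2)) (fld (s ^ 2) r0 r i)
    rw [hG.sol.con _ (hmap t ht) i, mul_zero] at h1
    exact h1
  · intro t ht v hv
    obtain ⟨τ, hτ⟩ : ∃ τ, τ = t / ℓ ^ 2 := ⟨_, rfl⟩
    have hτm : τ ∈ Ico 0 T := by rw [hτ]; exact hmap t ht
    have hres : ∀ x, dt (ℓ ^ 2 * T) U t x + adv (U t) (U t) x - ν • lap (U t) x =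
        (ℓ⁻¹ * ℓ⁻¹ * ℓ⁻¹) • (dt T u τ (ℓ⁻¹ • (x - x₀)) + adv (u τ) (u τ) (ℓ⁻¹ • (x - x₀)) -
          ν • lap (u τ) (ℓ⁻¹ • (x - x₀))) := by
      intro x
      rw [hdt t ht, hUsc, adv_sc (hdf _ (hmap t ht)), lap_sc (hsmt _ (hmap t ht)), ← hτ]
      generalize ℓ⁻¹ • (x - x₀) = y
      rw [smul_sub, smul_add, smul_comm ν]
    simp only [hres]
    obtain ⟨c, hc⟩ : ∃ c, c = ℓ⁻¹ * ℓ⁻¹ * ℓ⁻¹ := ⟨_, rfl⟩
    rw [← hc]
    obtain ⟨C, hC0, hC⟩ := fld_bdd hrsm hrout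
    obtain ⟨M, hM⟩ := hG.lr 1 τ hτm.2
    have hsl : Summable fun p => |l p τ| := by
      refine summable_l (l := fun p => l p τ) (M := M) hs fun i n => ?_
      have := hM τ ⟨hτm.1, le_rfl⟩ i n
      rwa [one_mul] at this
    -- the terms
    obtain ⟨F, hF⟩ : ∃ F : Option (Fin 4 × ℕ) → E3 → ℝ,
        F = fun p x => (c * l p τ) * ⟪v x, cf x₀ ℓ (fld (s ^ 2) r0 r) p x⟫_ℝ := ⟨_, rfl⟩
    have hcfc : ∀ p, Continuous (cf x₀ ℓ (fld (s ^ 2) r0 r) p) := by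
      intro p
      unfold cf
      exact (hrsm p).continuous.comp (by fun_prop)
    have hcfb : ∀ p x, ‖cf x₀ ℓ (fld (s ^ 2) r0 r) p x‖ ≤
        (Metric.closedBall x₀ ℓ).indicator (fun _ => C) x := by
      intro p x
      by_cases hx : x ∈ Metric.closedBall x₀ ℓ
      · rw [indicator_of_mem hx]
        exact hC p _
      · rw [indicator_of_notMem hx]
        rw [Metric.mem_closedBall, not_le, dist_eq_norm] at hx
        unfold cf
        rw [hrout, norm_zero]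
        rw [norm_smul, norm_inv, Real.norm_of_nonneg hℓ.le, inv_mul_eq_div, le_div_iff₀ hℓ]
        linarith
    have hind : MemLp ((Metric.closedBall x₀ ℓ).indicator (fun _ => C)) 2 (volume.restrict Ω) := by
      apply memLp_indicator_const _ Metric.isClosed_closedBall.measurableSet
      right
      exact ((Measure.restrict_apply_le _ _).trans_lt (isCompact_closedBall x₀ ℓ).measure_lt_top).ne
    have hvm : MemLp v 2 (volume.restrict Ω) := Lp.memLp v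
    have hgint : Integrable (fun x => ‖v x‖ * (Metric.closedBall x₀ ℓ).indicator (fun _ => C) x)
        (volume.restrict Ω) := hvm.norm.integrable_mul hind
    have hFm : ∀ p, AEStronglyMeasurable (F p) (volume.restrict Ω) := by
      intro p
      rw [hF]
      exact (hvm.1.inner (hcfc p).aestronglyMeasurable).const_mul _
    have hFb : ∀ p x, ‖F p x‖ ≤ |c| * |l p τ| *
        (‖v x‖ * (Metric.closedBall x₀ ℓ).indicator (fun _ => C) x) := by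
      intro p x
      rw [hF]
      simp only
      rw [norm_mul, norm_mul, Real.norm_eq_abs, Real.norm_eq_abs]
      apply mul_le_mul_of_nonneg_left _ (by positivity)
      exact (norm_inner_le_norm _ _).trans (mul_le_mul_of_nonneg_left (hcfb p x) (norm_nonneg _))
    have hFint : ∀ p, Integrable (F p) (volume.restrict Ω) := by
      intro p
      exact (hgint.const_mul (|c| * |l p τ|)).mono' (hFm p) (Eventually.of_forall (hFb p))
    have hFsum : Summable fun p => ∫ x in Ω, ‖F p x‖ := by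
      have h1 : Summable fun p => |c| * |l p τ| *
          ∫ x in Ω, ‖v x‖ * (Metric.closedBall x₀ ℓ).indicator (fun _ => C) x :=
        (hsl.mul_left |c|).mul_right _
      refine Summable.of_nonneg_of_le (fun p => integral_nonneg fun x => norm_nonneg _)
        (fun p => ?_) h1
      rw [← integral_const_mul]
      exact integral_mono (hFint p).norm (hgint.const_mul _) (hFb p)
    have hS := hasSum_integral_of_summable_integral_norm hFint hFsum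
    have hF0 : ∀ p, ∫ x in Ω, F p x = 0 := by
      intro p
      rw [hF]
      simp only
      rw [integral_const_mul, hv p, mul_zero]
    simp only [hF0] at hS
    have h0 := hS.unique hasSum_zero
    rw [← h0]
    refine integral_congr_ae (Eventually.of_forall fun x => ?_)
    simp only
    have h1 := ((hG.lsum τ hτm (ℓ⁻¹ • (x - x₀))).const_smul c)
    have h2 := (innerSL ℝ (v x)).hasSum h1
    rw [innerSL_apply_apply] at h2
    rw [← h2.tsum_eq]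
    refine tsum_congr fun p => ?_
    rw [hF]
    simp only [innerSL_apply_apply]
    rw [smul_smul, real_inner_smul_right]
    rfl
  · intro M
    obtain ⟨τ, hτ, hM⟩ := hG.enst (ℓ * M)
    refine ⟨ℓ ^ 2 * τ, ⟨by have := hτ.1; positivity, mul_lt_mul_of_pos_left hτ.2 hℓ2⟩, ?_⟩
    have e : ℓ ^ 2 * τ / ℓ ^ 2 = τ := by field_simp
    rw [hUsc, e, dir_sc hℓ x₀ (hdf τ hτ), inv_mul_eq_div, lt_div_iff₀ hℓ]
    linarith [mul_comm ℓ M]

end Pool.Agent.N976.DI
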