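import Pool.Agent.N976.SC.T12
import Pool.Agent.H772R2.NS.Defs

/-!
# Navier-Stokes equations with zero boundary values under sparse workless constraints

Strong solutions in the class of the Dirichlet problem: definitions and statements of the steps.
-/

open Set Filter Topology MeasureTheory
open scoped ContDiff InnerProductSpace

set_option autoImplicit false

namespace Pool.Agent.N976.DI

open Pool.Agent.N976.SC
open H772R2.NS (jac IsTest L2V L2M H1graph M3)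

/-- The product of a matrix and a vector; if `z = ∇v` then `mv z a = (a·∇) v`. -/
noncomputable def mv (z : M3) (a : E3) : E3 := WithLp.toLp 2 fun i => ∑ j, z (i, j) * a j

/-- `g ∈ H¹(0,T; E)` with derivative `g'`. -/
structure H1T {E : Type} [NormedAddCommGroup E] [InnerProductSpace ℝ E] (T : ℝ)
    (g g' : ℝ → E) : Prop where
  memLp : MemLp g' 2 (volume.restrict (Ioc 0 T))
  prim : ∀ a b, 0 ≤ a → a ≤ b → b ≤ T → g b - g a = ∫ s in a..b, g' s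

/-- `v` satisfies the constraints. -/
def Con {ι : Type} {Ω : Set E3} (r : ι → E3 → E3) (v : L2V Ω) : Prop :=
  ∀ i, ∫ x in Ω, ⟪v x, r i x⟫_ℝ = 0

/-- Strong solutions on `[0, T]` of the Navier-Stokes equations with viscosity `ν` and zero
boundary values in `Ω` under the constraints `∫ u · r i = 0`; `G = ∇u`, `u' = ∂ₜu`,
`G' = ∇∂ₜu`. -/
structure CSt {ι : Type} (Ω : Set E3) (ν T : ℝ) (r : ι → E3 → E3) (u u' : ℝ → L2V Ω)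
    (G G' : ℝ → L2M Ω) : Prop where
  grad : ∀ t ∈ Icc 0 T, (u t, G t) ∈ H1graph Ω
  gradDeriv : ∀ᵐ t ∂(volume.restrict (Ioc 0 T)), (u' t, G' t) ∈ H1graph Ω
  hu : H1T T u u'
  hG : H1T T G G'
  bdd : ∃ M, ∀ᵐ t ∂(volume.restrict (Ioc 0 T)), ‖u' t‖ ≤ M
  con : ∀ t ∈ Icc 0 T, Con r (u t)
  eqn : ∀ v z, (v, z) ∈ H1graph Ω → Con r v → ∀ t ∈ Icc 0 T,
    ⟪u t, v⟫_ℝ - ⟪u 0, v⟫_ℝ =
      ∫ s in (0 : ℝ)..t, ((∫ x in Ω, ⟪u s x, mv (z x) (u s x)⟫_ℝ) - ν * ⟪G s, z⟫_ℝ)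

/-- Smooth flows with compact support in `Ω` under the constraints. -/
structure Flow {ι : Type} (Ω : Set E3) (ν T : ℝ) (r : ι → E3 → E3) (U : ℝ → E3 → E3) : Prop where
  T0 : 0 < T
  sm : ContDiffOn ℝ ∞ (fun z : ℝ × E3 => U z.1 z.2) (Ico 0 T ×ˢ univ)
  cpt : ∃ K, IsCompact K ∧ K ⊆ Ω ∧ ∀ t ∈ Ico 0 T, ∀ x, x ∉ K → U t x = 0
  div : ∀ t ∈ Ico 0 T, ∀ x, divg (U t) x = 0
  con : ∀ t ∈ Ico 0 T, ∀ i, ip (U t) (r i) = 0
  res : ∀ t ∈ Ico 0 T, ∀ v : L2V Ω, Con r v →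
    ∫ x in Ω, ⟪v x, dt T U t x + adv (U t) (U t) x - ν • lap (U t) x⟫_ℝ = 0
  enst : ∀ M : ℝ, ∃ t ∈ Ico 0 T, M < dir (U t)

/-- (D1) Weak-strong uniqueness. -/
def S_D1 : Prop := ∀ (ι : Type) (Ω : Set E3) (ν T T' : ℝ) (r : ι → E3 → E3) (U : ℝ → E3 → E3)
  (u u' : ℝ → L2V Ω) (G G' : ℝ → L2M Ω), IsOpen Ω → 0 < ν → (∀ i, Continuous (r i)) →
  (∀ i, HasCompactSupport (r i)) → (∀ i, tsupport (r i) ⊆ Ω) → Flow Ω ν T r U →
  CSt Ω ν T' r u u' G G' → 0 < T' → u 0 =ᵐ[volume.restrict Ω] U 0 →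
  ∀ t ∈ Icc 0 T', t < T → u t =ᵐ[volume.restrict Ω] U t ∧
    G t =ᵐ[volume.restrict Ω] jac (U t)

/-- (D2) The smooth flow is a strong solution. -/
def S_D2 : Prop := ∀ (ι : Type) (Ω : Set E3) (ν T T' : ℝ) (r : ι → E3 → E3) (U : ℝ → E3 → E3),
  IsOpen Ω → 0 < ν → (∀ i, Continuous (r i)) → (∀ i, HasCompactSupport (r i)) →
  (∀ i, tsupport (r i) ⊆ Ω) → Flow Ω ν T r U → 0 < T' → T' < T →
  ∃ (u u' : ℝ → L2V Ω) (G G' : ℝ → L2M Ω), CSt Ω ν T' r u u' G G' ∧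
    ∀ t ∈ Icc 0 T', u t =ᵐ[volume.restrict Ω] U t

/-- (D3) A strong solution does not reach the blow-up time of the flow. -/
def S_D3 : Prop := ∀ (ι : Type) (Ω : Set E3) (ν T T' : ℝ) (r : ι → E3 → E3) (U : ℝ → E3 → E3)
  (u u' : ℝ → L2V Ω) (G G' : ℝ → L2M Ω), IsOpen Ω → Flow Ω ν T r U → CSt Ω ν T' r u u' G G' →
  T ≤ T' → (∀ t ∈ Icc 0 T', t < T → G t =ᵐ[volume.restrict Ω] jac (U t)) → False

/-- The dilated and translated constraint fields. -/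
noncomputable def cf {ι : Type} (x₀ : E3) (ℓ : ℝ) (r : ι → E3 → E3) (i : ι) (x : E3) : E3 :=
  r i (ℓ⁻¹ • (x - x₀))

/-- (D4) Dilation and translation. -/
def S_D4 : Prop := ∀ (s β lam ν : ℝ) (Q r0 : E3 → E3) (r : Fin 4 → E3 → E3) (T : ℝ)
  (u : ℝ → E3 → E3) (X : ℕ → ℝ → ℝ) (l : Option (Fin 4 × ℕ) → ℝ → ℝ), 1 < s → 0 < ν →
  (∀ i, ContDiff ℝ ∞ (fld (s ^ 2) r0 r i)) →
  (∀ i y, 1 ≤ ‖y‖ → fld (s ^ 2) r0 r i y = 0) → Good s β lam ν Q r0 r T u X l →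
  ∀ (Ω : Set E3) (x₀ : E3) (ℓ : ℝ), 0 < ℓ → IsOpen Ω → Metric.closedBall x₀ ℓ ⊆ Ω →
  Flow Ω ν (ℓ ^ 2 * T) (cf x₀ ℓ (fld (s ^ 2) r0 r))
    (fun t x => ℓ⁻¹ • u (t / ℓ ^ 2) (ℓ⁻¹ • (x - x₀)))

end Pool.Agent.N976.DI
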