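import Pool.Agent.N976.DI.D1
import Pool.Agent.N976.DI.D2
import Pool.Agent.N976.DI.D34
import Pool.Agent.N976.SC.T13

/-! The main theorem for the Dirichlet problem. -/

open Set Filter Topology MeasureTheory
open scoped ContDiff InnerProductSpace

set_option autoImplicit false

namespace Pool.Agent.N976.DI

open Pool.Agent.N976.SC
open H772R2.NS (jac IsTest L2V L2M H1graph M3)

theorem main (R₀ : ℝ) :
    ∃ (R : ℝ) (P r0 : E3 → E3) (r : Fin 4 → E3 → E3), R₀ ≤ R ∧ 1 < R ∧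
      (ContDiff ℝ ∞ P ∧ ∀ y, 1 ≤ ‖y‖ → P y = 0) ∧ (∀ y, divg P y = 0) ∧
      (ContDiff ℝ ∞ r0 ∧ ∀ y, 1 ≤ ‖y‖ → r0 y = 0) ∧
      (∀ k, ContDiff ℝ ∞ (r k) ∧ ∀ y, 1 ≤ ‖y‖ → r k y = 0) ∧
      ∀ (Ω : Set E3) (x₀ : E3) (ℓ ν : ℝ), IsOpen Ω → 0 < ℓ → 0 < ν →
        Metric.closedBall x₀ ℓ ⊆ Ω → ∃ (T : ℝ) (U : ℝ → E3 → E3), 0 < T ∧
        ContDiffOn ℝ ∞ (fun z : ℝ × E3 => U z.1 z.2) (Ico 0 T ×ˢ univ) ∧
        (∀ x, U 0 x = (ν / ℓ) • P (ℓ⁻¹ • (x - x₀))) ∧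
        (∀ T' : ℝ, 0 < T' → T' < T → ∃ (u u' : ℝ → L2V Ω) (G G' : ℝ → L2M Ω),
          CSt Ω ν T' (cf x₀ ℓ (fld R r0 r)) u u' G G' ∧ u 0 =ᵐ[volume.restrict Ω] U 0) ∧
        ∀ (T' : ℝ) (u u' : ℝ → L2V Ω) (G G' : ℝ → L2M Ω), 0 < T' →
          CSt Ω ν T' (cf x₀ ℓ (fld R r0 r)) u u' G G' → u 0 =ᵐ[volume.restrict Ω] U 0 →
          T' < T ∧ ∀ t ∈ Icc 0 T', u t =ᵐ[volume.restrict Ω] U t := by
  obtain ⟨s₁, hs₁, hcore⟩ := core
  obtain ⟨s₂, htb⟩ := t_TBP T1.t_PK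
  obtain ⟨s, hs⟩ : ∃ s, s = max (max s₁ s₂) R₀ := ⟨_, rfl⟩
  have hss1 : s₁ ≤ s := by rw [hs]; exact (le_max_left _ _).trans (le_max_left _ _)
  have hss2 : s₂ ≤ s := by rw [hs]; exact (le_max_right _ _).trans (le_max_left _ _)
  have hsR : R₀ ≤ s := by rw [hs]; exact le_max_right _ _
  have hs120 : 120 ≤ s := hs₁.trans hss1
  have hs0 : 0 < s := by linarith
  have hs1 : 1 < s := by linarith
  obtain ⟨β, lam, ζ, Q, r0, r, hT, hTP, hr0, hrk⟩ := htb s hss2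
  have hQd : Differentiable ℝ Q := hT.sm.differentiable (by simp)
  obtain ⟨c, hc⟩ : ∃ c, c = 5 / 3 * lam * s ^ 4 / β := ⟨_, rfl⟩
  have hrs : ∀ k, ContDiff ℝ ∞ (r k) := by
    intro k
    have h3 := hT.rsm (some (k, 0))
    have e : fam s r0 r (some (k, 0)) = r k := by
      ext1 y
      simp [fam]
    rw [e] at h3
    exact h3
  have hfsm : ∀ i, ContDiff ℝ ∞ (fld (s ^ 2) r0 r i) := by
    intro i
    rw [← fam_eq]
    exact hT.rsm i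
  have hfout : ∀ i y, 1 ≤ ‖y‖ → fld (s ^ 2) r0 r i y = 0 := by
    intro i y hy
    rcases i with _ | ⟨k, n⟩
    · exact hr0 y hy
    · change r k ((s ^ 2) ^ n • y) = 0
      apply hrk
      rw [norm_smul, Real.norm_eq_abs, abs_of_pos (by positivity)]
      have : 1 ≤ (s ^ 2) ^ n := one_le_pow₀ (by nlinarith)
      nlinarith [norm_nonneg y]
  refine ⟨s ^ 2, fun y => c • Q y, r0, r, by nlinarith, by nlinarith,
    ⟨T4.cd_sm hT.sm _, ?_⟩, divg_smul' hQd hT.div c, ⟨hT.rsm none, hr0⟩,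
    fun k => ⟨hrs k, hrk k⟩, ?_⟩
  · intro y hy
    simp only [hT.out y (by linarith), smul_zero]
  intro Ω x₀ ℓ ν hΩ hℓ hν hball
  obtain ⟨T, u, X, l, h⟩ := hcore s hss1 β lam ζ Q r0 r hT hTP hr0 hrk ν hν
  have hF := t_D4 s β lam ν Q r0 r T u X l hs1 hν hfsm hfout h Ω x₀ ℓ hℓ hΩ hball
  have hi : 0 < ℓ⁻¹ := inv_pos.2 hℓ
  -- the constraint fields
  have hcfo : ∀ i x, x ∉ Metric.closedBall x₀ ℓ → cf x₀ ℓ (fld (s ^ 2) r0 r) i x = 0 := by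
    intro i x hx
    unfold cf
    apply hfout
    rw [Metric.mem_closedBall, dist_eq_norm, not_le] at hx
    rw [norm_smul, Real.norm_eq_abs, abs_of_pos hi]
    rw [← div_eq_inv_mul, le_div_iff₀ hℓ]
    linarith
  have hcfs : ∀ i, Function.support (cf x₀ ℓ (fld (s ^ 2) r0 r) i) ⊆ Metric.closedBall x₀ ℓ := by
    intro i x hx
    by_contra hcon
    exact hx (hcfo i x hcon)
  have hcft : ∀ i, tsupport (cf x₀ ℓ (fld (s ^ 2) r0 r) i) ⊆ Metric.closedBall x₀ ℓ := fun i =>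
    closure_minimal (hcfs i) Metric.isClosed_closedBall
  have hcfk : ∀ i, HasCompactSupport (cf x₀ ℓ (fld (s ^ 2) r0 r) i) := fun i =>
    HasCompactSupport.intro (isCompact_closedBall x₀ ℓ) (hcfo i)
  have hcfc : ∀ i, Continuous (cf x₀ ℓ (fld (s ^ 2) r0 r) i) := by
    intro i
    unfold cf
    exact (hfsm i).continuous.comp (by fun_prop)
  refine ⟨ℓ ^ 2 * T, fun t x => ℓ⁻¹ • u (t / ℓ ^ 2) (ℓ⁻¹ • (x - x₀)), hF.T0, hF.sm, ?_, ?_, ?_⟩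
  · intro x
    simp only [zero_div]
    rw [h.ini, smul_smul, smul_smul, hc]
    congr 1
    field_simp
  · intro T' hT' hT'T
    obtain ⟨v, v', G, G', h1, h2⟩ := t_D2 _ Ω ν _ T' _ _ hΩ hν hcfc hcfk
      (fun i => (hcft i).trans hball) hF hT' hT'T
    exact ⟨v, v', G, G', h1, h2 0 ⟨le_rfl, hT'.le⟩⟩
  · intro T' v v' G G' hT' hv hv0
    have h1 := D1.t_D1 _ Ω ν _ T' _ _ v v' G G' hΩ hν hcfc hcfk
      (fun i => (hcft i).trans hball) hF hv hT' hv0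
    have h2 : T' < ℓ ^ 2 * T := by
      by_contra hcon
      push Not at hcon
      exact t_D3 _ Ω ν _ T' _ _ v v' G G' hΩ hF hv hcon fun t ht htT => (h1 t ht htT).2
    exact ⟨h2, fun t ht => (h1 t ht (ht.2.trans_lt h2)).1⟩

end Pool.Agent.N976.DI
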